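import Pool.Agent.H64.LV.Evc

/-!
# A closed number is few bits given the context

`CH_near_off`: entropy of an integer which is near a function of the condition off an event.
`few_closed`: if the digits of a number and the line are nearly independent given the time and the
context, and the number is near a polynomial of the line at the time, off a small event, then its
digits are few bits given the time and the context.
-/

set_option autoImplicit false

namespace Pool.VS64

open Finset Real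
open Pool.Agent.H49.Ent Pool.Agent.H32.Dense Pool.STK
open Pool.AVG71 (MI_eq MI_eq')
open Pool.KVA (MI)
open Pool.BFL (Pb)

theorem Pb_one_le {Ω : Type} [Fintype Ω] {p : Ω → ℝ} (hp : IsLaw p) (A : Ω → Prop) :
    Pb p A ≤ 1 := by
  classical
  have h1 := hp.sum_one
  rw [← h1]
  unfold Pb
  refine Finset.sum_le_sum fun ω _ => ?_
  split_ifs
  · exact le_rfl
  · exact hp.nonneg ω

/-- **Entropy of an integer which is near a function of the condition off an event.** -/
theorem CH_near_off {Ω 𝓦 : Type} [Fintype Ω] {p : Ω → ℝ} (hp : IsLaw p) (X : Ω → ℤ) (W : Ω → 𝓦)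
    (F : Ω → Prop) {B D : ℝ} (hX : ∀ ω, 0 < p ω → |(X ω : ℝ)| ≤ B)
    (h : ∀ ω ν, 0 < p ω → 0 < p ν → ¬ F ω → ¬ F ν → W ω = W ν → |(X ω : ℝ) - X ν| ≤ D) :
    CH p X W ≤ Real.log 2 + (Pb p F * Real.log (2 * (2 * B) + 1) +
      Pb p (fun ω => ¬ F ω) * Real.log (2 * D + 1)) := by
  classical
  have h0 := hp.nonneg
  have e1 := CH_le_add h0 X (fun ω => decide (F ω)) W
  have e3 : CH p (fun ω => decide (F ω)) W ≤ Real.log 2 := by
    have k := CH_le_card hp.nonneg hp.sum_one (fun ω => decide (F ω)) W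
      (fun _ => Finset.univ) (fun ω _ => Finset.mem_univ _)
    rw [Ex_const hp.sum_one] at k
    simpa using k
  have e4 : CH p (fun ω (_ : Fin 1) => X ω) (fun ω => (decide (F ω), W ω)) ≤
      ((1 : ℕ) : ℝ) * Ex p (fun ω => Real.log (2 * (if F ω then 2 * B else D) + 1)) := by
    refine CH_le_vec h0 hp.sum_one _ _ _ fun ω ω' a b e i => ?_
    simp only [Prod.mk.injEq, decide_eq_decide] at e
    by_cases hF : F ω
    · rw [if_pos hF]
      have g1 := hX ω a
      have g2 := hX ω' b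
      push_cast
      rw [abs_le] at g1 g2 ⊢
      constructor <;> linarith [g1.1, g1.2, g2.1, g2.2]
    · have hF' : ¬ F ω' := fun h' => hF (e.1.2 h')
      rw [if_neg hF]
      push_cast
      exact h ω ω' a b hF hF' e.2
  have e5 : Ex p (fun ω => Real.log (2 * (if F ω then 2 * B else D) + 1)) =
      Pb p F * Real.log (2 * (2 * B) + 1) + Pb p (fun ω => ¬ F ω) * Real.log (2 * D + 1) := by
    unfold Ex Pb
    rw [Finset.sum_mul, Finset.sum_mul, ← Finset.sum_add_distrib]
    refine Finset.sum_congr rfl fun ω _ => ?_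
    beta_reduce
    by_cases hF : F ω
    · rw [if_pos hF, if_pos hF, if_neg (not_not.mpr hF)]
      ring
    · rw [if_neg hF, if_neg hF, if_pos hF]
      ring
  have e6 : CH p X (fun ω => (decide (F ω), W ω)) ≤
      CH p (fun ω (_ : Fin 1) => X ω) (fun ω => (decide (F ω), W ω)) :=
    CH_mono_left h0 fun ω ν _ _ e => congrFun (Prod.ext_iff.mp e).1 0
  rw [e5] at e4
  push_cast at e4
  linarith

/-- **The digits of a closed number are few bits** given the time and the context. -/
theorem few_closed {Ω α γ : Type} [Fintype Ω] {p : Ω → ℝ} (hp : IsLaw p) (x : Ω → ℝ)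
    (th : Ω → ℝ) (L : Ω → α) (g : Ω → γ) (mu : α → Polynomial ℝ) {e B δ : ℝ} {Y : ℕ}
    (hmi : MI p (fun ω => ⌊(2 : ℝ) ^ Y * x ω⌋) L (fun ω => (th ω, g ω)) ≤ e)
    (hB : ∀ ω, 0 < p ω → |x ω| ≤ B) (hδ : 0 ≤ δ) :
    CH p (fun ω => ⌊(2 : ℝ) ^ Y * x ω⌋) (fun ω => (th ω, g ω)) ≤
      e + (Real.log 2 + (Pb p (fun ω => δ < |x ω - (mu (L ω)).eval (th ω)|) *
        Real.log (2 * (2 * (2 ^ Y * B + 1)) + 1) + Real.log (2 * (2 ^ Y * (2 * δ) + 1) + 1))) := by
  have h0 := hp.nonneg
  rw [MI_eq h0] at hmi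
  have h2Y : (0 : ℝ) < 2 ^ Y := by positivity
  by_cases hne : ∃ ω, 0 < p ω
  swap
  · exfalso
    have h1 := hp.sum_one
    have h2 : ∑ ω, p ω = 0 := Finset.sum_eq_zero fun ω _ => by
      refine le_antisymm ?_ (h0 ω)
      by_contra h
      exact hne ⟨ω, not_le.1 h⟩
    rw [h2] at h1
    exact zero_ne_one h1
  obtain ⟨ω₀, hω₀⟩ := hne
  have hB0 : 0 ≤ B := (abs_nonneg _).trans (hB ω₀ hω₀)
  have h1 := CH_near_off hp (fun ω => ⌊(2 : ℝ) ^ Y * x ω⌋) (fun ω => (L ω, (th ω, g ω)))
    (fun ω => δ < |x ω - (mu (L ω)).eval (th ω)|) (B := 2 ^ Y * B + 1)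
    (D := 2 ^ Y * (2 * δ) + 1) (fun ω hω => by
      have b1 := hB ω hω
      have b2 := Int.floor_le ((2 : ℝ) ^ Y * x ω)
      have b3 := Int.lt_floor_add_one ((2 : ℝ) ^ Y * x ω)
      have b4 : |(2 : ℝ) ^ Y * x ω| ≤ 2 ^ Y * B := by
        rw [abs_mul, abs_of_pos h2Y]
        exact mul_le_mul_of_nonneg_left b1 h2Y.le
      have b5 := abs_le.mp b4
      rw [abs_le]
      constructor <;> linarith [b5.1, b5.2])
    (fun ω ν hω hν h1 h2 e => by
      obtain ⟨e1, e2⟩ := Prod.ext_iff.mp e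
      have e3 : th ω = th ν := (Prod.ext_iff.mp e2).1
      have e1' : L ω = L ν := e1
      refine Pool.AVG57.floor_near' ?_
      rw [← mul_sub, abs_mul, abs_of_pos h2Y]
      refine mul_le_mul_of_nonneg_left ?_ h2Y.le
      have a1 := not_lt.1 h1
      have a2 := not_lt.1 h2
      rw [e1', e3] at a1
      have a3 := abs_le.mp a1
      have a4 := abs_le.mp a2
      rw [abs_le]
      constructor <;> linarith [a3.1, a3.2, a4.1, a4.2])
  have h2 : Pb p (fun ω => ¬ δ < |x ω - (mu (L ω)).eval (th ω)|) ≤ 1 := Pb_one_le hp _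
  have h3 : 0 ≤ Real.log (2 * (2 ^ Y * (2 * δ) + 1) + 1) := by
    refine Real.log_nonneg ?_
    have : 0 ≤ (2 : ℝ) ^ Y * (2 * δ) := by positivity
    linarith
  have h4 := mul_le_of_le_one_left h3 h2
  linarith

end Pool.VS64
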