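import Pool.Agent.H64.LV.Evc

/-!
# Targets with arbitrary paths

`adP`: the moved places `mv` are places of the charts of the window `w`, the paths `tp` of the targets
are arbitrary polynomials, written in the window `W`. `GrdP`: the gradients. `PrP`: the inputs on one
event and for one law. `PrP.hyp`: `VD.Hyp`.
-/

set_option autoImplicit false

namespace Pool.VS64

open Finset Real MvPolynomial
open Pool.Agent.H49.Ent Pool.Agent.H32.Dense Pool.STK Pool.KA Pool.KSAT Pool.K2S Pool.PB Pool.S6C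
open Pool.GEN Pool.CHT Pool.CHX Pool.ISO Pool.LA91 Pool.AVG71 Pool.AVG5 Pool.D2F2 Pool.AVG57
open Pool.PB.Trl (rt rt_mem t_rt)
open Pool.D2R (hgt)
open Pool.KVA (MI)
open Pool.OWN68 (CH_chain2)
open Pool.LV64

variable {m J : ℕ}

/-- **The data of moved places and of targets with arbitrary paths.** -/
noncomputable def adP (F : Fam m J) (c : ℕ → Fin m) {k C : ℕ} (mv : Fin k → ℕ) (Xt : Fin C → ℕ)
    (q w W X mm : ℕ) (γ : ℕ → ℕ) (gg : F.Ω → Fin C → Fin k → ℝ)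
    (H : LnT F → ℕ → MvPolynomial (Option (Fin m)) ℝ) (tp : F.Ω → Fin C → Polynomial ℝ)
    {ζ : Type} (z : F.Ω → ζ) : VD F.Ω ζ C k where
  z := z
  th := rt F W
  P := tp
  A ω j := Polynomial.C (2 ^ (γ (mv j) + q)) *
    dv W (fun s (_ : Fin m) => H (upw w W s) (mv j)) (c (mv j)) (slam F W ω)
  bb ω u j := (⌊2 ^ X * gg ω u j⌋ : ℤ) / 2 ^ X
  Xp := Xt
  X := X
  m := mm

/-- **The gradients** of the targets for samples with the same time, context and charts, and near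
heights of the moved places. -/
structure GrdP (F : Fam m J) (c : ℕ → Fin m) {k C : ℕ} (mv : Fin k → ℕ) (Xt : Fin C → ℕ)
    (q W X : ℕ) (γ : ℕ → ℕ) (U : ℝ) (B : F.Ω → Prop)
    (G₀ : PtT F → ℕ → MvPolynomial (Option (Fin m)) ℝ) (gg : F.Ω → Fin C → Fin k → ℝ)
    (tp : F.Ω → Fin C → Polynomial ℝ) {ζ χ₁ χ₂ : Type} (z : F.Ω → ζ) (Cj : F.Ω → χ₁)
    (Cx : F.Ω → χ₂) : Prop where
  U0 : 0 ≤ U
  bm : ∀ ω, B ω → ∀ u j, |gg ω u j| ≤ U
  bj : ∀ ω ν, B ω → B ν → F.t ω = F.t ν → z ω = z ν → Cj ω = Cj ν → NrH F c mv q γ G₀ ω ν →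
    ∀ u j, |gg ω u j - gg ν u j| ≤ U / 2 ^ X
  bx : ∀ ω ν, B ω → B ν → F.t ω = F.t ν → z ω = z ν → Cx ω = Cx ν → NrH F c mv q γ G₀ ω ν →
    ∀ u j, |gg ω u j - gg ν u j| ≤ U / 2 ^ X
  nx : ∀ ω ν, B ω → B ν → F.t ω = F.t ν → z ω = z ν → Cx ω = Cx ν → NrH F c mv q γ G₀ ω ν →
    ∀ u, |2 ^ Xt u * ((tp ω u).eval (rt F W ω) - (tp ν u).eval (rt F W ν)) -
      2 ^ X * ∑ j, gg ω u j *
        (2 ^ (γ (mv j) + q) * (hgt F c G₀ ω (mv j) - hgt F c G₀ ν (mv j)))| ≤ U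

/-- **The inputs** on one event `B` and for one law `p`: `Rj`, `Rx`: the records of the balls `j`,
`x`; `Cj`, `Cx`: their charts; `zw`: the record of `w`; `Yc`: the side information; `z`: the context;
`V`: near digits of the moved places; `nT`, `bT`: near and far digits of the targets. -/
structure PrP (F : Fam m J) (c : ℕ → Fin m) {k C : ℕ} (mv : Fin k → ℕ) (Xt : Fin C → ℕ)
    (q w W X mm D K : ℕ) (γ : ℕ → ℕ) (B : F.Ω → Prop)
    (G₀ : PtT F → ℕ → MvPolynomial (Option (Fin m)) ℝ)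
    (H : LnT F → ℕ → MvPolynomial (Option (Fin m)) ℝ) (gg : F.Ω → Fin C → Fin k → ℝ)
    (tp : F.Ω → Fin C → Polynomial ℝ)
    {ζ ζ' υ' χ₁ χ₂ ρ₁ ρ₂ υ τ₁ τ₂ : Type} (z : F.Ω → ζ) (zw : F.Ω → ζ') (Yc : F.Ω → υ')
    (Cj : F.Ω → χ₁) (Cx : F.Ω → χ₂) (Rj : F.Ω → ρ₁) (Rx : F.Ω → ρ₂) (V : F.Ω → υ)
    (nT : F.Ω → τ₁) (bT : F.Ω → τ₂)
    (p : F.Ω → ℝ) (Nf Nn Nx Nu Nv : Fin k → ℕ → ℝ) (U Fv e : ℝ) : Prop where
  law : IsLaw p
  sup : ∀ ω, 0 < p ω → B ω
  wW : w ≤ W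
  WJ : W ≤ J
  deg : ∀ s l, (H s l).totalDegree ≤ D
  dP : ∀ ω, 0 < p ω → ∀ u, (tp ω u).natDegree ≤ K
  DK : D + 1 ≤ K
  KX : (K : ℝ) ≤ 2 ^ (X + mm)
  Xtm : ∀ u, Xt u ≤ X
  cls : ∀ ω, B ω → ∀ j, G₀ (ptr F J ω) (mv j) = H (slam F w ω) (mv j)
  grd : GrdP F c mv Xt q W X γ U B G₀ gg tp z Cj Cx
  mU : U + 1 ≤ 2 ^ mm
  zT : Det p z (F.T1 W)
  czy : CH p (fun ω => (rt F W ω, z ω)) (fun ω => (zw ω, Yc ω)) ≤ e
  cyz : CH p (fun ω => (zw ω, Yc ω)) (fun ω => (rt F W ω, z ω)) ≤ e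
  ti : MI p (rt F W) ((adP F c mv Xt q w W X mm γ gg H tp z).L K)
    ((adP F c mv Xt q w W X mm γ gg H tp z).g K) ≤ e
  mj : MI p Rj (fun ω => (jetm F c mv w H Nf ω, bT ω))
    (fun ω => ((jetm F c mv w H Nn ω, nT ω), (zw ω, Yc ω))) ≤ e
  mx : MI p Rx (jetm F c mv w H Nf)
    (fun ω => (jetm F c mv w H Nx ω, (zw ω, Yc ω))) ≤ e
  chj : CH p Cj Rj ≤ e
  chx : CH p Cx Rx ≤ e
  zx : CH p zw Rx ≤ e
  n0 : ∀ j, Nn j 0 * J ≤ (γ (mv j) + q : ℕ)
  n1 : ∀ j, Nn j 1 * J + W ≤ (γ (mv j) + q + (X + mm) : ℕ)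
  x0 : ∀ j, Nx j 0 * J ≤ (γ (mv j) + q : ℕ)
  x1 : ∀ j, Nx j 1 * J + W ≤ (γ (mv j) + q + (X + mm) : ℕ)
  u0 : ∀ j, Nu j 0 * J ≤ (γ (mv j) + q : ℕ)
  u1 : ∀ j, Nu j 1 * J + W ≤ (γ (mv j) + q + (X + mm) : ℕ)
  tn : CH p nT (fun ω => (rt F W ω, (adP F c mv Xt q w W X mm γ gg H tp z).g K ω)) ≤ e
  tf : CH p (fun ω u => ⌊(2 : ℝ) ^ Xt u * (tp ω u).eval (rt F W ω)⌋)
    (fun ω => ((jetm F c mv w H Nf ω, bT ω), ((jetm F c mv w H Nn ω, nT ω),
      (rt F W ω, z ω)))) ≤ e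
  ac : CH p ((adP F c mv Xt q w W X mm γ gg H tp z).ac K) (fun ω =>
    (jetm F c mv w H Nf ω, (rt F W ω, z ω))) ≤ e
  va : CH p (fun ω => ((adP F c mv Xt q w W X mm γ gg H tp z).v K ω).2) (fun ω =>
    (jetm F c mv w H Nv ω, (rt F W ω, z ω))) ≤ e
  dj : CH p (fun ω u (a : Fin K) => ⌊(2 : ℝ) ^ Xt u * (tp ω u).coeff a.succ⌋)
    (fun ω => (jetm F c mv w H Nf ω, (rt F W ω, z ω))) ≤ e
  jt : CH p (fun ω u (a : Fin (K + 1)) => ⌊(2 : ℝ) ^ Xt u * (tp ω u).coeff a⌋ / 2 ^ Xt u)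
    (fun ω => (jetm F c mv w H Nu ω, (Rx ω, (rt F W ω, z ω)))) ≤ e
  vf : Fv - e ≤ CH p V (fun ω => (jetm F c mv w H Nv ω, (Rx ω, Yc ω)))

section

variable {F : Fam m J} {c : ℕ → Fin m} {k C : ℕ} {mv : Fin k → ℕ} {Xt : Fin C → ℕ}
  {q w W X mm D K : ℕ} {γ : ℕ → ℕ} {B : F.Ω → Prop}
  {G₀ : PtT F → ℕ → MvPolynomial (Option (Fin m)) ℝ}
  {H : LnT F → ℕ → MvPolynomial (Option (Fin m)) ℝ} {gg : F.Ω → Fin C → Fin k → ℝ}
  {tp : F.Ω → Fin C → Polynomial ℝ}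
  {ζ ζ' υ' χ₁ χ₂ ρ₁ ρ₂ υ τ₁ τ₂ : Type} {z : F.Ω → ζ} {zw : F.Ω → ζ'} {Yc : F.Ω → υ'}
  {Cj : F.Ω → χ₁} {Cx : F.Ω → χ₂} {Rj : F.Ω → ρ₁} {Rx : F.Ω → ρ₂} {V : F.Ω → υ}
  {nT : F.Ω → τ₁} {bT : F.Ω → τ₂}
  {M : F.Ω → Fin C → ℤ} {p : F.Ω → ℝ} {Nf Nn Nx Nu Nv : Fin k → ℕ → ℝ}
  {U Fv e : ℝ}

/-- The own height of a moved place at the time of the sample. -/
theorem adP_valA (hwW : w ≤ W) (hW : W ≤ J) {j : Fin k} {ω : F.Ω}
    (h : G₀ (ptr F J ω) (mv j) = H (slam F w ω) (mv j)) :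
    ((adP F c mv Xt q w W X mm γ gg H tp z).A ω j).eval
      ((adP F c mv Xt q w W X mm γ gg H tp z).th ω) =
      2 ^ (γ (mv j) + q) * hgt F c G₀ ω (mv j) := by
  show (Polynomial.C (2 ^ (γ (mv j) + q)) * dv W (fun s (_ : Fin m) => H (upw w W s) (mv j))
    (c (mv j)) (slam F W ω)).eval (rt F W ω) = _
  rw [Polynomial.eval_mul, Polynomial.eval_C, dvW_hgt hwW hW h]

/-- The rounded gradient is near the gradient. -/
theorem adP_bbr (ω : F.Ω) (u : Fin C) (j : Fin k) :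
    |gg ω u j - (adP F c mv Xt q w W X mm γ gg H tp z).bb ω u j| ≤ 1 / 2 ^ X := by
  have h1 := adG_bbr (c := c) (mv := mv) (i := 0) (q := q) (w := w) (W := W) (X := X)
    (mm := mm) (γ := γ) (gg := fun ω => gg ω u) (H := H) (z := z) ω j
  exact h1

/-- The gradient, rounded, is bounded. -/
theorem adP_bm (h : ∀ ω, B ω → ∀ u j, |gg ω u j| ≤ U) {ω : F.Ω} (hω : B ω) (u : Fin C)
    (j : Fin k) : |(adP F c mv Xt q w W X mm γ gg H tp z).bb ω u j| ≤ U + 1 := by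
  have h1 := adP_bbr (c := c) (mv := mv) (Xt := Xt) (q := q) (w := w)
    (W := W) (X := X) (mm := mm) (γ := γ) (gg := gg) (H := H) (tp := tp) (z := z) ω u j
  have h2 := h ω hω u j
  have h3 : (1 : ℝ) / 2 ^ X ≤ 1 := by
    rw [div_le_one (by positivity)]
    exact one_le_pow₀ (by norm_num)
  have h4 := abs_le.mp h1
  have h5 := abs_le.mp h2
  rw [abs_le]
  constructor <;> linarith [h4.1, h4.2, h5.1, h5.2]

/-- **Near heights** of the moved places: equal time, equal `v`. -/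
theorem adP_near (hwW : w ≤ W) (hW : W ≤ J)
    (hc : ∀ ω, B ω → ∀ j, G₀ (ptr F J ω) (mv j) = H (slam F w ω) (mv j))
    (hH : ∀ s l, (H s l).totalDegree ≤ D) (hDK : D + 1 ≤ K) (hK : (K : ℝ) ≤ 2 ^ (X + mm))
    {ω ν : F.Ω} (hω : B ω) (hν : B ν) (hth : rt F W ω = rt F W ν)
    (hv : (adP F c mv Xt q w W X mm γ gg H tp z).v K ω =
      (adP F c mv Xt q w W X mm γ gg H tp z).v K ν) : NrH F c mv q γ G₀ ω ν := by
  intro j
  have h01 : 0 ≤ rt F W ω ∧ rt F W ω < 1 := by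
    have h := tw_mem F hW ω
    rw [tw_rt F hW ω] at h
    exact h
  have hdA : ∀ (o : F.Ω) (l : Fin k), ((adG F c mv (mv j) q w W X mm γ (fun _ _ => 0) H z).A o
      l).natDegree ≤ K := fun o l => (Polynomial.natDegree_C_mul_le _ _).trans ((natDegree_dv W
    (G := fun s (_ : Fin m) => H (upw w W s) (mv l)) (fun s _ => hH _ _) _ _).trans hDK)
  obtain ⟨_, e2⟩ := Prod.ext_iff.mp hv
  obtain ⟨e3, e4⟩ := Prod.ext_iff.mp e2
  exact adG_near (c := c) (mv := mv) (i := mv j) (q := q) (X := X) (mm := mm) (γ := γ)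
    (gg := fun _ _ => 0) (z := z) (K := K) hwW hW (fun o ho => ⟨hc o ho j, hc o ho⟩) hω hν
    hth h01 ⟨hdA ω, hdA ν⟩ hK (fun l a => congrFun (congrFun e3 l) a) (fun l => congrFun e4 l) j

/-- The coefficient of order zero from the value and from the others. -/
theorem nc0_few {Ω β 𝓦 : Type} [Fintype Ω] {p : Ω → ℝ} (hp : IsLaw p) (d : VD Ω β C k)
    (u : Fin C) (Z : Ω → 𝓦) (hd : ∀ ω, 0 < p ω → (d.P ω u).natDegree ≤ K)
    (hth : ∀ ω, 0 < p ω → 0 ≤ d.th ω ∧ d.th ω < 1)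
    (hZ : ∀ ω ν, 0 < p ω → 0 < p ν → Z ω = Z ν → d.th ω = d.th ν ∧
      ⌊(2 : ℝ) ^ d.Xp u * (d.P ω u).eval (d.th ω)⌋ = ⌊(2 : ℝ) ^ d.Xp u * (d.P ν u).eval (d.th ν)⌋ ∧
      ∀ a : Fin K, d.nc K ω u a.succ = d.nc K ν u a.succ) :
    CH p (fun ω => d.nc K ω u 0) Z ≤ cV K := by
  refine CH_pair_int hp _ Z (by positivity) fun ω ν hω hν e => ?_
  obtain ⟨h1, h2, h3⟩ := hZ ω ν hω hν e
  have hs : (0 : ℝ) < 2 ^ d.Xp u := by positivity
  have ev : ∀ o : Ω, 0 < p o → (2 : ℝ) ^ d.Xp u * (d.P o u).coeff 0 =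
      2 ^ d.Xp u * (d.P o u).eval (d.th o) -
        ∑ a : Fin K, 2 ^ d.Xp u * ((d.P o u).coeff (a.succ : Fin (K + 1)) *
          d.th o ^ ((a.succ : Fin (K + 1)) : ℕ)) := by
    intro o ho
    rw [AD.eval_fin (hd o ho), Fin.sum_univ_succ, ← Finset.mul_sum]
    simp only [Fin.val_zero, pow_zero, mul_one]
    ring
  show |((⌊(2 : ℝ) ^ d.Xp u * (d.P ω u).coeff ((0 : Fin (K + 1)) : ℕ)⌋ : ℤ) : ℝ) -
    (⌊(2 : ℝ) ^ d.Xp u * (d.P ν u).coeff ((0 : Fin (K + 1)) : ℕ)⌋ : ℤ)| ≤ _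
  have e0 : ((0 : Fin (K + 1)) : ℕ) = 0 := rfl
  rw [e0]
  have h4 : |(2 : ℝ) ^ d.Xp u * (d.P ω u).eval (d.th ω) -
      2 ^ d.Xp u * (d.P ν u).eval (d.th ν)| ≤ 1 := by
    have a1 := Int.floor_le ((2 : ℝ) ^ d.Xp u * (d.P ω u).eval (d.th ω))
    have a2 := Int.lt_floor_add_one ((2 : ℝ) ^ d.Xp u * (d.P ω u).eval (d.th ω))
    have a3 := Int.floor_le ((2 : ℝ) ^ d.Xp u * (d.P ν u).eval (d.th ν))
    have a4 := Int.lt_floor_add_one ((2 : ℝ) ^ d.Xp u * (d.P ν u).eval (d.th ν))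
    rw [h2] at a1 a2
    rw [abs_le]
    constructor <;> linarith
  have h5 : |∑ a : Fin K, 2 ^ d.Xp u * ((d.P ω u).coeff (a.succ : Fin (K + 1)) *
          d.th ω ^ ((a.succ : Fin (K + 1)) : ℕ)) -
        ∑ a : Fin K, 2 ^ d.Xp u * ((d.P ν u).coeff (a.succ : Fin (K + 1)) *
          d.th ν ^ ((a.succ : Fin (K + 1)) : ℕ))| ≤ K := by
    rw [← Finset.sum_sub_distrib]
    refine (Finset.abs_sum_le_sum_abs _ _).trans ((Finset.sum_le_sum (g := fun _ => (1 : ℝ))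
      fun a _ => ?_).trans (le_of_eq ?_))
    · have b1 := near_of_floor hs (h3 a)
      rw [← h1]
      have b2 : |d.th ω ^ ((a.succ : Fin (K + 1)) : ℕ)| ≤ 1 := by
        rw [abs_of_nonneg (pow_nonneg (hth ω hω).1 _)]
        exact pow_le_one₀ (hth ω hω).1 (hth ω hω).2.le
      have b3 : (2 : ℝ) ^ d.Xp u * ((d.P ω u).coeff (a.succ : Fin (K + 1)) *
          d.th ω ^ ((a.succ : Fin (K + 1)) : ℕ)) - 2 ^ d.Xp u *
          ((d.P ν u).coeff (a.succ : Fin (K + 1)) * d.th ω ^ ((a.succ : Fin (K + 1)) : ℕ)) =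
          (2 ^ d.Xp u * ((d.P ω u).coeff (a.succ : Fin (K + 1)) -
            (d.P ν u).coeff (a.succ : Fin (K + 1)))) *
            d.th ω ^ ((a.succ : Fin (K + 1)) : ℕ) := by ring
      rw [b3, abs_mul]
      have b4 : |(2 : ℝ) ^ d.Xp u * ((d.P ω u).coeff (a.succ : Fin (K + 1)) -
            (d.P ν u).coeff (a.succ : Fin (K + 1)))| ≤ 1 := by
        rw [abs_mul, abs_of_pos hs]
        have b5 := mul_le_mul_of_nonneg_left b1 hs.le
        rwa [mul_one_div_cancel hs.ne'] at b5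
      calc _ ≤ (1 : ℝ) * 1 := mul_le_mul b4 b2 (abs_nonneg _) zero_le_one
        _ = 1 := one_mul 1
    · rw [Finset.sum_const, Finset.card_univ, Fintype.card_fin, nsmul_eq_mul, mul_one]
  refine floor_near' ?_
  rw [ev ω hω, ev ν hν]
  have h6 := abs_le.mp h4
  have h7 := abs_le.mp h5
  rw [abs_le]
  constructor <;> linarith [h6.1, h6.2, h7.1, h7.2]

/-- **The heights are few** given charts, time, gradient and context. -/
theorem PrP.N_few (P : PrP F c mv Xt q w W X mm D K γ B G₀ H gg tp z zw Yc Cj Cx Rj Rx V nT bT p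
      Nf Nn Nx Nu Nv U Fv e) (u : Fin C) :
    CH p (fun ω => (adP F c mv Xt q w W X mm γ gg H tp z).N K ω u) (fun ω => (Cx ω, (Rx ω,
      ((adP F c mv Xt q w W X mm γ gg H tp z).T ω,
        (adP F c mv Xt q w W X mm γ gg H tp z).g K ω)))) ≤
      Real.log (2 * (U + 4 * k + 2 * ((K + 1) * (k + 1)) + 1) + 1) := by
  have h0 := P.law.nonneg
  have hp := P.law
  have hU := P.grd.U0
  have hX : (0 : ℝ) < 2 ^ X := by positivity
  have hth : ∀ ω, 0 ≤ rt F W ω ∧ rt F W ω < 1 := fun ω => by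
    have h := tw_mem F P.WJ ω
    rw [tw_rt F P.WJ ω] at h
    exact h
  have hdP : ∀ ω, 0 < p ω → ∀ (u : Fin C),
      ((adP F c mv Xt q w W X mm γ gg H tp z).P ω u).natDegree ≤ K := P.dP
  have hdA : ∀ ω (j : Fin k), ((adP F c mv Xt q w W X mm γ gg H tp z).A ω j).natDegree ≤ K :=
    fun ω j => (Polynomial.natDegree_C_mul_le _ _).trans ((natDegree_dv W
      (G := fun s (_ : Fin m) => H (upw w W s) (mv j)) (fun s _ => P.deg _ _) _ _).trans P.DK)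
  refine CH_pair_int hp _ _ (by positivity) fun ω ν hω hν e => ?_
  obtain ⟨e1, e2⟩ := Prod.ext_iff.mp e
  obtain ⟨_, e3⟩ := Prod.ext_iff.mp e2
  obtain ⟨e4, e5⟩ := Prod.ext_iff.mp e3
  have e6 : rt F W ω = rt F W ν := (Prod.ext_iff.mp e4).1
  have e7 : (adP F c mv Xt q w W X mm γ gg H tp z).bb ω =
    (adP F c mv Xt q w W X mm γ gg H tp z).bb ν := (Prod.ext_iff.mp e4).2
  have e8 := VD.det_wv p ω ν hω hν (VD.det_gw p ω ν hω hν e5)
  have e9 : z ω = z ν := (Prod.ext_iff.mp e8).1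
  have t1 := time_eq F P.WJ (P.zT ω ν hω hν e9) e6
  have n1 := adP_near P.wW P.WJ P.cls P.deg P.DK P.KX (P.sup ω hω) (P.sup ν hν) e6 e8
  have b1 := P.grd.nx ω ν (P.sup ω hω) (P.sup ν hν) t1.2 e9 e1 n1 u
  have c1 := P.cls ω (P.sup ω hω)
  have c2 := P.cls ν (P.sup ν hν)
  have hbr := fun j => adP_bbr (c := c) (mv := mv) (Xt := Xt) (q := q)
    (w := w) (W := W) (X := X) (mm := mm) (γ := γ) (gg := gg) (H := H) (tp := tp) (z := z) ω u j
  have hbm := fun (ω : F.Ω) (hω : B ω) (j : Fin k) => adP_bm (c := c) (mv := mv)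
    (Xt := Xt) (q := q) (w := w) (W := W) (X := X) (mm := mm) (γ := γ) (H := H)
    (tp := tp) (z := z) P.grd.bm hω u j
  have vA := fun j => adP_valA (c := c) (Xt := Xt) (q := q) (X := X)
    (mm := mm) (γ := γ) (gg := gg) (tp := tp) (z := z) P.wW P.WJ (c1 j)
  have vA' := fun j => adP_valA (c := c) (Xt := Xt) (q := q) (X := X)
    (mm := mm) (γ := γ) (gg := gg) (tp := tp) (z := z) P.wW P.WJ (c2 j)
  have vP : ∀ o : F.Ω, ((adP F c mv Xt q w W X mm γ gg H tp z).P o u).eval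
    ((adP F c mv Xt q w W X mm γ gg H tp z).th o) = (tp o u).eval (rt F W o) := fun _ => rfl
  have hXX : (adP F c mv Xt q w W X mm γ gg H tp z).X = X := rfl
  have hXt : (adP F c mv Xt q w W X mm γ gg H tp z).Xp = Xt := rfl
  have hmm : (adP F c mv Xt q w W X mm γ gg H tp z).m = mm := rfl
  have hh1 : 0 ≤ (adP F c mv Xt q w W X mm γ gg H tp z).th ω ∧
    (adP F c mv Xt q w W X mm γ gg H tp z).th ω < 1 := hth ω
  have hh2 : 0 ≤ (adP F c mv Xt q w W X mm γ gg H tp z).th ν ∧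
    (adP F c mv Xt q w W X mm γ gg H tp z).th ν < 1 := hth ν
  obtain ⟨d, hd⟩ : ∃ d, d = adP F c mv Xt q w W X mm γ gg H tp z := ⟨_, rfl⟩
  simp only [← hd] at *
  have q2 := abs_le.mp (VD.Q_val hh1 u (hdP ω hω u) (hdA ω) (fun j => (hbm ω (P.sup ω hω) j).trans
    (by rw [hmm]; exact P.mU)))
  have q3 := abs_le.mp (VD.Q_val hh2 u (hdP ν hν u) (hdA ν) (fun j => (hbm ν (P.sup ν hν) j).trans
    (by rw [hmm]; exact P.mU)))
  rw [VD.kn_of e4 e5] at q2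
  have hQ : |d.Q ω u - d.Q ν u| ≤ U + 4 * k := by
    have e13 : d.Q ω u - d.Q ν u = 2 ^ Xt u *
        ((tp ω u).eval (rt F W ω) - (tp ν u).eval (rt F W ν)) -
        2 ^ X * ∑ j : Fin k, d.bb ω u j * (2 ^ (γ (mv j) + q) *
          (hgt F c G₀ ω (mv j) - hgt F c G₀ ν (mv j))) := by
      unfold VD.Q
      rw [vP, vP, hXX, hXt]
      simp only [vA, vA', ← e7, mul_sub, Finset.sum_sub_distrib]
      ring
    have b2 : |∑ j : Fin k, (gg ω u j - d.bb ω u j) *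
        (2 ^ (γ (mv j) + q) * (hgt F c G₀ ω (mv j) - hgt F c G₀ ν (mv j)))| ≤
        k * (1 / 2 ^ X * 2 ^ 2) := by
      refine (Finset.abs_sum_le_sum_abs _ _).trans ?_
      refine (Finset.sum_le_sum (g := fun _ => 1 / 2 ^ X * (2 : ℝ) ^ 2) fun j _ => ?_).trans
        (le_of_eq ?_)
      · rw [abs_mul]
        refine mul_le_mul (hbr j) ?_ (abs_nonneg _) (by positivity)
        have h5 := n1 j
        have h6 : (0 : ℝ) < 2 ^ (γ (mv j) + q) := by positivity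
        rw [abs_mul, abs_of_pos h6, mul_comm]
        exact (le_div_iff₀ h6).1 h5
      · rw [Finset.sum_const, Finset.card_univ, Fintype.card_fin, nsmul_eq_mul]
    have e14 : d.Q ω u - d.Q ν u = (2 ^ Xt u *
        ((tp ω u).eval (rt F W ω) - (tp ν u).eval (rt F W ν)) -
        2 ^ X * ∑ j : Fin k, gg ω u j * (2 ^ (γ (mv j) + q) *
          (hgt F c G₀ ω (mv j) - hgt F c G₀ ν (mv j)))) +
        2 ^ X * ∑ j : Fin k, (gg ω u j - d.bb ω u j) *
        (2 ^ (γ (mv j) + q) * (hgt F c G₀ ω (mv j) - hgt F c G₀ ν (mv j))) := by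
      rw [e13]
      simp only [sub_mul, Finset.sum_sub_distrib]
      ring
    rw [e14]
    refine (abs_add_le _ _).trans (add_le_add b1 ?_)
    rw [abs_mul, abs_of_pos hX]
    refine (mul_le_mul_of_nonneg_left b2 hX.le).trans (le_of_eq ?_)
    field_simp
    ring
  have q1 := abs_le.mp hQ
  have f1 := Int.floor_le (d.val K ω u)
  have f2 := Int.lt_floor_add_one (d.val K ω u)
  have f3 := Int.floor_le (d.val K ν u)
  have f4 := Int.lt_floor_add_one (d.val K ν u)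
  have hN : (d.N K ω u : ℝ) = ⌊d.val K ω u⌋ := rfl
  have hN' : (d.N K ν u : ℝ) = ⌊d.val K ν u⌋ := rfl
  rw [hN, hN', abs_le]
  constructor <;> linarith [q1.1, q1.2, q2.1, q2.2, q3.1, q3.2]

/-- **`VD.Hyp` for `adP`.** -/
theorem PrP.hyp (P : PrP F c mv Xt q w W X mm D K γ B G₀ H gg tp z zw Yc Cj Cx Rj Rx V nT bT p
      Nf Nn Nx Nu Nv U Fv e) {Bq eV : ℝ} (hB0 : 0 ≤ Bq) (heV : 0 ≤ eV)
    (hvb : CH p V (fun ω => ((adP F c mv Xt q w W X mm γ gg H tp z).T ω,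
        (adP F c mv Xt q w W X mm γ gg H tp z).g K ω)) ≤ Fv + eV)
    (hvy : CH p V (fun ω => ((adP F c mv Xt q w W X mm γ gg H tp z).Y K ω,
        (rt F W ω, (adP F c mv Xt q w W X mm γ gg H tp z).g K ω))) ≤
      Fv + eV - k * X * Real.log 2)
    (hqv : ∀ ω ω', 0 < p ω → 0 < p ω' → V ω = V ω' →
      (adP F c mv Xt q w W X mm γ gg H tp z).T ω =
        (adP F c mv Xt q w W X mm γ gg H tp z).T ω' →
      (adP F c mv Xt q w W X mm γ gg H tp z).g K ω =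
        (adP F c mv Xt q w W X mm γ gg H tp z).g K ω' →
      ∀ u, |((adP F c mv Xt q w W X mm γ gg H tp z).Q ω u - M ω u) -
        ((adP F c mv Xt q w W X mm γ gg H tp z).Q ω' u - M ω' u)| ≤ Bq) :
    (adP F c mv Xt q w W X mm γ gg H tp z).Hyp K p Rj Rx
      (fun ω => (jetm F c mv w H Nn ω, nT ω))
      (jetm F c mv w H Nx)
      (fun ω => (jetm F c mv w H Nf ω, bT ω))
      (jetm F c mv w H Nf) V M (Fv + eV) ((C + 1) * (4 * e + (cE0 k K U + cV K)) + eV) Bq := by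
  have hp := P.law
  have h0 := hp.nonneg
  have hwW := P.wW
  have hW := P.WJ
  have he : 0 ≤ e := (CH_nonneg h0 _ _).trans P.chj
  have hU := P.grd.U0
  have hcJ := cJ_nonneg K
  have hcA := cA_nonneg K
  have hcV := cV_nonneg K
  have hC0 : (0 : ℝ) ≤ C := Nat.cast_nonneg C
  have hk0 : (0 : ℝ) ≤ k := Nat.cast_nonneg k
  have hl5 : 0 ≤ Real.log 5 := Real.log_nonneg (by norm_num)
  have hlU : 0 ≤ Real.log (2 * (U + 1) + 1) := Real.log_nonneg (by linarith)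
  have hkU : 0 ≤ k * Real.log (2 * (U + 1) + 1) := by positivity
  have hlN : 0 ≤ Real.log (2 * (U + 4 * k + 2 * ((K + 1) * (k + 1)) + 1) + 1) := by
    refine Real.log_nonneg ?_
    have : (0 : ℝ) ≤ 4 * k + 2 * ((K + 1) * (k + 1)) := by positivity
    linarith
  have hk2 : 0 ≤ 2 * (k : ℝ) * cJ K := by positivity
  have hE0 : cE0 k K U = cA K + 2 * k * cJ K + 3 * cJ K + Real.log 5 +
    k * Real.log (2 * (U + 1) + 1) +
    Real.log (2 * (U + 4 * k + 2 * ((K + 1) * (k + 1)) + 1) + 1) := by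
    unfold cE0
    ring
  obtain ⟨E, hE⟩ : ∃ E : ℝ, E = 4 * e + (cE0 k K U + cV K) := ⟨_, rfl⟩
  have hE1 : 0 ≤ E := by rw [hE, hE0]; positivity
  have hCE : 0 ≤ C * E := by positivity
  have hEs : E ≤ (C + 1) * E + eV := by nlinarith
  have hEt : (C + 1) * E + eV = C * E + E + eV := by ring
  rw [← hE]
  have hth : ∀ ω, 0 ≤ rt F W ω ∧ rt F W ω < 1 := fun ω => by
    have h := tw_mem F hW ω
    rw [tw_rt F hW ω] at h
    exact h
  have jn : CH p (jetm F c mv w H Nn) (fun ω => (rt F W ω,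
      (adP F c mv Xt q w W X mm γ gg H tp z).v K ω)) ≤ 2 * k * cJ K :=
    jetm_v (c := c) (mv := mv) (i := 0) (q := q) (X := X) (mm := mm) (γ := γ)
      (gg := fun _ _ => 0) (z := z) hp P.deg P.DK hwW hW P.n0 P.n1
  have jx : CH p (jetm F c mv w H Nx) (fun ω => (rt F W ω,
      (adP F c mv Xt q w W X mm γ gg H tp z).v K ω)) ≤ 2 * k * cJ K :=
    jetm_v (c := c) (mv := mv) (i := 0) (q := q) (X := X) (mm := mm) (γ := γ)
      (gg := fun _ _ => 0) (z := z) hp P.deg P.DK hwW hW P.x0 P.x1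
  have ju : CH p (jetm F c mv w H Nu) (fun ω => (rt F W ω,
      (adP F c mv Xt q w W X mm γ gg H tp z).v K ω)) ≤ 2 * k * cJ K :=
    jetm_v (c := c) (mv := mv) (i := 0) (q := q) (X := X) (mm := mm) (γ := γ)
      (gg := fun _ _ => 0) (z := z) hp P.deg P.DK hwW hW P.u0 P.u1
  have hbv : ∀ (χ : Type) (Cc : F.Ω → χ), (∀ ω ν, B ω → B ν → F.t ω = F.t ν → z ω = z ν →
      Cc ω = Cc ν → NrH F c mv q γ G₀ ω ν → ∀ u j, |gg ω u j - gg ν u j| ≤ U / 2 ^ X) →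
      ∀ (ρ : Type) (R : F.Ω → ρ), CH p Cc R ≤ e →
      CH p (adP F c mv Xt q w W X mm γ gg H tp z).bb (fun ω => (R ω, (rt F W ω,
        (adP F c mv Xt q w W X mm γ gg H tp z).v K ω))) ≤
        C * (e + k * Real.log (2 * (U + 1) + 1)) := by
    intro χ Cc hb ρ R hCR
    refine CH_pi h0 _ C _ fun u => ?_
    refine CH_via h0 _ Cc (W' := fun ω => (Cc ω, (R ω, (rt F W ω,
      (adP F c mv Xt q w W X mm γ gg H tp z).v K ω)))) (le_trans (CH_mono_cond h0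
        fun ω ν _ _ e => (Prod.ext_iff.mp e).1) hCR) ?_ (fun ω ν a b e => e)
    refine CH_pi h0 _ k _ fun j => ?_
    have hs : (0 : ℝ) < 2 ^ X := by positivity
    have key : CH p (fun ω => ⌊(2 : ℝ) ^ X * gg ω u j⌋) (fun ω => (Cc ω, (R ω, (rt F W ω,
        (adP F c mv Xt q w W X mm γ gg H tp z).v K ω)))) ≤ Real.log (2 * (U + 1) + 1) := by
      refine CH_pair_int hp _ _ (by positivity) fun ω ν hω hν e => ?_
      obtain ⟨e1, e2⟩ := Prod.ext_iff.mp e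
      obtain ⟨_, e3⟩ := Prod.ext_iff.mp e2
      obtain ⟨e4, e5⟩ := Prod.ext_iff.mp e3
      have e9 : z ω = z ν := (Prod.ext_iff.mp e5).1
      have t1 := time_eq F P.WJ (P.zT ω ν hω hν e9) e4
      have n1 := adP_near P.wW P.WJ P.cls P.deg P.DK P.KX (P.sup ω hω) (P.sup ν hν) e4 e5
      have b1 := hb ω ν (P.sup ω hω) (P.sup ν hν) t1.2 e9 e1 n1 u j
      refine floor_near' ?_
      rw [← mul_sub, abs_mul, abs_of_pos hs]
      have b2 := mul_le_mul_of_nonneg_left b1 hs.le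
      rwa [mul_div_cancel₀ _ hs.ne'] at b2
    refine le_trans (CH_mono_left h0 fun ω ν _ _ e => ?_) key
    have e1 : ⌊(2 : ℝ) ^ X * gg ω u j⌋ = ⌊(2 : ℝ) ^ X * gg ν u j⌋ := (Prod.ext_iff.mp e).1
    show ((⌊(2 : ℝ) ^ X * gg ω u j⌋ : ℤ) : ℝ) / 2 ^ X = ((⌊(2 : ℝ) ^ X * gg ν u j⌋ : ℤ) : ℝ) / 2 ^ X
    rw [e1]
  have hN : ∀ u : Fin C, CH p (fun ω => (adP F c mv Xt q w W X mm γ gg H tp z).N K ω u)
      (fun ω => (Rx ω, ((adP F c mv Xt q w W X mm γ gg H tp z).T ω,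
        (adP F c mv Xt q w W X mm γ gg H tp z).g K ω))) ≤
      e + Real.log (2 * (U + 4 * k + 2 * ((K + 1) * (k + 1)) + 1) + 1) := fun u => by
    have a1 := CH_le_add h0 (fun ω => (adP F c mv Xt q w W X mm γ gg H tp z).N K ω u) Cx
      (fun ω => (Rx ω, ((adP F c mv Xt q w W X mm γ gg H tp z).T ω,
        (adP F c mv Xt q w W X mm γ gg H tp z).g K ω)))
    have a2 : CH p Cx (fun ω => (Rx ω, ((adP F c mv Xt q w W X mm γ gg H tp z).T ω,
        (adP F c mv Xt q w W X mm γ gg H tp z).g K ω))) ≤ CH p Cx Rx :=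
      CH_mono_cond h0 fun _ _ _ _ e => (Prod.ext_iff.mp e).1
    have a3 := P.N_few u
    have a4 := P.chx
    linarith
  have hAd : ∀ ω (j : Fin k), ((adP F c mv Xt q w W X mm γ gg H tp z).A ω j).natDegree ≤ K :=
    fun ω j => (Polynomial.natDegree_C_mul_le _ _).trans ((natDegree_dv W
      (G := fun s (_ : Fin m) => H (upw w W s) (mv j)) (fun s _ => P.deg _ _) _ _).trans P.DK)
  have hPd := P.dP
  have hbm := fun (ω : F.Ω) (hω : B ω) (u : Fin C) (j : Fin k) => adP_bm (c := c) (mv := mv)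
    (Xt := Xt) (q := q) (w := w) (W := W) (X := X) (mm := mm) (γ := γ)
    (H := H) (tp := tp) (z := z) P.grd.bm hω u j
  have hti := P.ti
  have hac := P.ac
  have hva := P.va
  have htn := P.tn
  have htf := P.tf
  have hdj := P.dj
  have hjt := P.jt
  obtain ⟨d, hd⟩ : ∃ d, d = adP F c mv Xt q w W X mm γ gg H tp z := ⟨_, rfl⟩
  have hXp : d.Xp = Xt := by rw [hd]; rfl
  have hX : d.X = X := by rw [hd]; rfl
  have hm : d.m = mm := by rw [hd]; rfl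
  have htt : rt F W = d.th := by rw [hd]; rfl
  have hdz : z = d.z := by rw [hd]; rfl
  have hdP : tp = d.P := by rw [hd]; rfl
  have hczy := P.czy
  have hcyz := P.cyz
  simp only [← hd] at *
  rw [htt] at hti hac hva hvy hczy hcyz jn jx ju hth htn
  simp only [htt] at hbv htf hdj hjt
  simp only [hdz] at hac hva hczy hcyz htf hdj hjt
  simp only [hdP] at htf hdj hjt hPd
  have hgv : Det p (fun ω => (d.th ω, d.g K ω)) (fun ω => (d.th ω, d.v K ω)) :=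
    fun ω ν a b e => Prod.ext (Prod.ext_iff.mp e).1
      (VD.det_wv p ω ν a b (VD.det_gw p ω ν a b (Prod.ext_iff.mp e).2))
  have hwv : Det p (fun ω => (d.th ω, d.w K ω)) (fun ω => (d.th ω, d.v K ω)) :=
    fun ω ν a b e => Prod.ext (Prod.ext_iff.mp e).1
      (VD.det_wv p ω ν a b (Prod.ext_iff.mp e).2)
  have hdj' : CH p (fun ω u (a : Fin K) => d.nc K ω u a.succ)
      (fun ω => (jetm F c mv w H Nf ω, (d.th ω, d.z ω))) ≤ e := by
    have e1 : (fun ω u (a : Fin K) => d.nc K ω u a.succ) = fun ω u (a : Fin K) =>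
        ⌊(2 : ℝ) ^ Xt u * (d.P ω u).coeff a.succ⌋ := by
      rw [← hXp]
      rfl
    rw [e1]
    exact hdj
  refine
    { law := hp
      th := fun ω _ => hth ω
      dP := fun ω hω u => hPd ω hω u
      dA := fun ω _ j => hAd ω j
      bm := fun ω hω u j => by
        rw [hm]
        exact (hbm ω (P.sup ω hω) u j).trans P.mU
      Xpm := fun u => by
        rw [hXp, hX]
        exact P.Xtm u
      ti := by linarith
      mj := ?_
      fj := ?_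
      Lj := ?_
      bbj := ?_
      mx := ?_
      fx := ?_
      Lx := ?_
      bbx := ?_
      jt := ?_
      Nx := ?_
      vf := ?_
      vb := ?_
      vy := ?_
      B0 := hB0
      qv := hqv }
  · -- mj
    have e1 := MI_few h0 Rj
        (fun ω => (jetm F c mv w H Nf ω, bT ω))
        (W := fun ω => ((jetm F c mv w H Nn ω, nT ω), (d.th ω, d.z ω)))
        (W' := fun ω => ((jetm F c mv w H Nn ω, nT ω), (zw ω, Yc ω)))
        (CH_pair_ctx h0 hczy) (CH_pair_ctx h0 hcyz)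
    have := P.mj
    linarith
  · -- fj
    have h1 := CH_subadd h0 (jetm F c mv w H Nn) nT (fun ω => (d.th ω, d.g K ω))
    have h2 : CH p (jetm F c mv w H Nn) (fun ω => (d.th ω, d.g K ω)) ≤
        CH p (jetm F c mv w H Nn) (fun ω => (d.th ω, d.v K ω)) := CH_mono_cond h0 hgv
    linarith
  · -- Lj
    obtain ⟨W', hW'⟩ : ∃ W' : F.Ω → _, W' = fun ω =>
        ((jetm F c mv w H Nf ω, bT ω), ((jetm F c mv w H Nn ω, nT ω), (d.th ω, d.z ω))) :=
      ⟨_, rfl⟩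
    rw [← hW'] at htf ⊢
    have h3 : CH p (d.ac K) W' ≤ e := by
      refine le_trans (CH_mono_cond h0 fun ω ν _ _ e => ?_) hac
      rw [hW'] at e
      obtain ⟨e1, e2⟩ := Prod.ext_iff.mp e
      exact Prod.ext (Prod.ext_iff.mp e1).1 (Prod.ext_iff.mp e2).2
    have h6 : CH p (fun ω u (a : Fin K) => d.nc K ω u a.succ) W' ≤ e := by
      refine le_trans (CH_mono_cond h0 fun ω ν _ _ e => ?_) hdj'
      rw [hW'] at e
      obtain ⟨e1, e2⟩ := Prod.ext_iff.mp e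
      exact Prod.ext (Prod.ext_iff.mp e1).1 (Prod.ext_iff.mp e2).2
    obtain ⟨R₁, hR₁⟩ : ∃ R₁ : F.Ω → _, R₁ = fun ω => ((fun u (a : Fin K) => d.nc K ω u a.succ),
      fun u => ⌊(2 : ℝ) ^ Xt u * (d.P ω u).eval (d.th ω)⌋) := ⟨_, rfl⟩
    have h7 : CH p (fun ω u => d.nc K ω u 0) (fun ω => (R₁ ω, W' ω)) ≤ C * cV K := by
      refine CH_pi h0 _ C _ fun u => ?_
      refine nc0_few hp d u _ (fun ω hω => hPd ω hω u) (fun ω _ => hth ω) fun ω ν _ _ e => ?_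
      obtain ⟨e1, e2⟩ := Prod.ext_iff.mp e
      rw [hR₁] at e1
      rw [hW'] at e2
      obtain ⟨e3, e4⟩ := Prod.ext_iff.mp e1
      refine ⟨(Prod.ext_iff.mp (Prod.ext_iff.mp (Prod.ext_iff.mp e2).2).2).1, ?_, fun a => ?_⟩
      · rw [hXp]
        exact congrFun e4 u
      · exact congrFun (congrFun e3 u) a
    have h8 : CH p R₁ W' ≤ e + e := by
      have a1 := CH_subadd h0 (fun ω u (a : Fin K) => d.nc K ω u a.succ)
        (fun ω u => ⌊(2 : ℝ) ^ Xt u * (d.P ω u).eval (d.th ω)⌋) W'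
      rw [hR₁]
      linarith
    have h9 := CH_le_add h0 (fun ω => d.nc K ω) R₁ W'
    have h10 : CH p (fun ω => d.nc K ω) (fun ω => (R₁ ω, W' ω)) ≤
        CH p (fun ω u => d.nc K ω u 0) (fun ω => (R₁ ω, W' ω)) := by
      refine CH_mono_left h0 fun ω ν _ _ e => ?_
      obtain ⟨e1, e2⟩ := Prod.ext_iff.mp e
      have e3 := (Prod.ext_iff.mp e2).1
      rw [hR₁] at e3
      funext u a
      refine Fin.cases ?_ (fun b => ?_) a
      · exact congrFun e1 u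
      · exact congrFun (congrFun (Prod.ext_iff.mp e3).1 u) b
    have h2 := CH_subadd h0 (d.ac K) (fun ω => d.nc K ω) W'
    have h4 : CH p (d.L K) W' ≤ CH p (fun ω => (d.ac K ω, d.nc K ω)) W' := by
      refine CH_mono_left h0 fun ω ν _ _ e => ?_
      obtain ⟨e1, e2⟩ := Prod.ext_iff.mp e
      rw [hW'] at e2
      exact Prod.ext (Prod.ext_iff.mp (Prod.ext_iff.mp (Prod.ext_iff.mp e2).2).2).2 e1
    have h5 : C * cV K ≤ C * E := mul_le_mul_of_nonneg_left (by linarith) hC0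
    linarith
  · -- bbj
    have h1 := hbv _ Cj P.grd.bj _ Rj P.chj
    have h2 : CH p d.bb (fun ω => (Rj ω, (d.th ω, d.g K ω))) ≤
        CH p d.bb (fun ω => (Rj ω, (d.th ω, d.v K ω))) := CH_mono_cond h0 fun ω ν a b e => by
      obtain ⟨e1, e2⟩ := Prod.ext_iff.mp e
      exact Prod.ext e1 (hgv ω ν a b e2)
    have h5 : C * (e + k * Real.log (2 * (U + 1) + 1)) ≤ C * E :=
      mul_le_mul_of_nonneg_left (by linarith) hC0
    linarith
  · -- mx
    have e1 := MI_few h0 Rx (jetm F c mv w H Nf)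
        (W := fun ω => (jetm F c mv w H Nx ω, (d.th ω, d.z ω)))
        (W' := fun ω => (jetm F c mv w H Nx ω, (zw ω, Yc ω)))
        (CH_pair_ctx h0 hczy) (CH_pair_ctx h0 hcyz)
    have := P.mx
    linarith
  · -- fx
    have h2 : CH p (jetm F c mv w H Nx) (fun ω => (d.th ω, d.w K ω)) ≤
        CH p (jetm F c mv w H Nx) (fun ω => (d.th ω, d.v K ω)) := CH_mono_cond h0 hwv
    linarith
  · -- Lx
    have h1 : CH p (fun ω u (a : Fin K) => d.nc K ω u a.succ) (fun ω => (jetm F c mv w H Nf ω,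
        (jetm F c mv w H Nx ω, (d.th ω, d.z ω)))) ≤ e := by
      refine le_trans (CH_mono_cond h0 fun ω ν _ _ e => ?_) hdj'
      obtain ⟨e1, e2⟩ := Prod.ext_iff.mp e
      exact Prod.ext e1 (Prod.ext_iff.mp e2).2
    have h2 := CH_subadd h0 (d.ac K) (fun ω u (a : Fin K) => d.nc K ω u a.succ)
      (fun ω => (jetm F c mv w H Nf ω, (jetm F c mv w H Nx ω, (d.th ω, d.z ω))))
    have h3 : CH p (d.ac K) (fun ω => (jetm F c mv w H Nf ω, (jetm F c mv w H Nx ω,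
        (d.th ω, d.z ω)))) ≤ e := by
      refine le_trans (CH_mono_cond h0 fun ω ν _ _ e => ?_) hac
      obtain ⟨e1, e2⟩ := Prod.ext_iff.mp e
      exact Prod.ext e1 (Prod.ext_iff.mp e2).2
    have h4 : d.l K = fun ω => (d.ac K ω, fun u (a : Fin K) => d.nc K ω u a.succ) := rfl
    rw [h4]
    linarith
  · -- bbx
    have h1 := hbv _ Cx P.grd.bx _ Rx P.chx
    have h2 : CH p d.bb (fun ω => (Rx ω, (d.th ω, d.w K ω))) ≤
        CH p d.bb (fun ω => (Rx ω, (d.th ω, d.v K ω))) := CH_mono_cond h0 fun ω ν a b e => by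
      obtain ⟨e1, e2⟩ := Prod.ext_iff.mp e
      exact Prod.ext e1 (hwv ω ν a b e2)
    have h5 : C * (e + k * Real.log (2 * (U + 1) + 1)) ≤ C * E :=
      mul_le_mul_of_nonneg_left (by linarith) hC0
    linarith
  · -- jt
    have h1 : CH p (d.nu K) (fun ω => (Rx ω, (d.th ω, d.v K ω))) ≤ 2 * k * cJ K + e := by
      have e1 : d.nu K = fun ω u (a : Fin (K + 1)) =>
          ⌊(2 : ℝ) ^ Xt u * (d.P ω u).coeff a⌋ / 2 ^ Xt u := by
        rw [← hXp]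
        rfl
      rw [e1]
      refine CH_via h0 _ (jetm F c mv w H Nu) (W' := fun ω =>
        (jetm F c mv w H Nu ω, (Rx ω, (d.th ω, d.z ω)))) (le_trans (CH_mono_cond h0
          fun ω ν _ _ e => (Prod.ext_iff.mp e).2) ju) hjt (fun ω ν a b e => ?_)
      obtain ⟨e1, e2⟩ := Prod.ext_iff.mp e
      obtain ⟨e3, e4⟩ := Prod.ext_iff.mp e2
      exact Prod.ext e1 (Prod.ext e3 (Prod.ext (Prod.ext_iff.mp e4).1
        (Prod.ext_iff.mp (Prod.ext_iff.mp e4).2).1))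
    linarith
  · -- Nx
    have h1 := CH_pi h0 (fun ω => (Rx ω, (d.T ω, d.g K ω))) C (fun ω => d.N K ω) hN
    have h5 : C * (e + Real.log (2 * (U + 4 * k + 2 * ((K + 1) * (k + 1)) + 1) + 1)) ≤ C * E :=
      mul_le_mul_of_nonneg_left (by linarith) hC0
    have h6 : d.N K = fun ω => d.N K ω := rfl
    rw [h6]
    linarith
  · -- vf
    obtain ⟨W', hW'⟩ : ∃ W' : F.Ω → _, W' = fun ω =>
        (jetm F c mv w H Nv ω, (Rx ω, Yc ω)) := ⟨_, rfl⟩
    have h1 := P.vf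
    rw [← hW'] at h1
    obtain ⟨E', hE'⟩ : ∃ E' : F.Ω → _, E' = fun ω => ((d.th ω, d.z ω), (d.v K ω).2) := ⟨_, rfl⟩
    have h2 := CH_le_add h0 V (fun ω => (zw ω, E' ω)) W'
    have h3 : CH p (fun ω => (zw ω, E' ω)) W' ≤ e + (e + e) := by
      have a1' : CH p (fun ω => (zw ω, E' ω)) W' = CH p zw W' + CH p E' (fun ω => (zw ω, W' ω)) :=
        CH_chain2 h0 zw E' W'
      have a3 : CH p zw W' ≤ CH p zw Rx := CH_mono_cond h0 fun ω ν _ _ e => by
        rw [hW'] at e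
        exact (Prod.ext_iff.mp (Prod.ext_iff.mp e).2).1
      have a4 : CH p E' (fun ω => (zw ω, W' ω)) = CH p (fun ω => (d.th ω, d.z ω))
          (fun ω => (zw ω, W' ω)) + CH p (fun ω => (d.v K ω).2) (fun ω => ((d.th ω, d.z ω),
            (zw ω, W' ω))) := by
        rw [hE']
        exact CH_chain2 h0 (fun ω => (d.th ω, d.z ω)) (fun ω => (d.v K ω).2)
          (fun ω => (zw ω, W' ω))
      have a5 : CH p (fun ω => (d.th ω, d.z ω)) (fun ω => (zw ω, W' ω)) ≤ e := by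
        refine le_trans (CH_mono_cond h0 fun ω ν a b e => ?_) hczy
        obtain ⟨e1, e2⟩ := Prod.ext_iff.mp e
        rw [hW'] at e2
        exact Prod.ext e1 (Prod.ext_iff.mp (Prod.ext_iff.mp e2).2).2
      have a6 : CH p (fun ω => (d.v K ω).2) (fun ω => ((d.th ω, d.z ω), (zw ω, W' ω))) ≤ e := by
        refine le_trans (CH_mono_cond h0 fun ω ν a b e => ?_) hva
        obtain ⟨e1, e2⟩ := Prod.ext_iff.mp e
        obtain ⟨_, e4⟩ := Prod.ext_iff.mp e2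
        rw [hW'] at e4
        exact Prod.ext (Prod.ext_iff.mp e4).1 e1
      have := P.zx
      linarith
    have h4 : CH p V (fun ω => ((zw ω, E' ω), W' ω)) ≤
        CH p V (fun ω => (Rx ω, (d.th ω, d.v K ω))) :=
      CH_mono_cond h0 fun ω ν a b e => by
        obtain ⟨e1, e2⟩ := Prod.ext_iff.mp e
        obtain ⟨_, e4⟩ := Prod.ext_iff.mp e1
        rw [hE'] at e4
        obtain ⟨e5, e6⟩ := Prod.ext_iff.mp e4
        obtain ⟨e7, e8⟩ := Prod.ext_iff.mp e5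
        rw [hW'] at e2
        exact Prod.ext (Prod.ext_iff.mp (Prod.ext_iff.mp e2).2).1
          (Prod.ext e7 (Prod.ext e8 e6))
    linarith
  · -- vb
    exact hvb
  · -- vy
    rw [hX]
    linarith

end

end Pool.VS64
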