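import Pool.Agent.H64.VS.Evp

/-!
# Closed gradients of a target with an arbitrary path, on one event: the theorem

`vd_few`: the digits of a closed gradient are few bits given the time and the context. `pp_clo`: from
the inputs `PrP` and the row of one target given the digits of the others.
-/

set_option autoImplicit false

namespace Pool.VS64

open Finset Real MvPolynomial
open Pool.Agent.H49.Ent Pool.Agent.H32.Dense Pool.STK Pool.KA Pool.KSAT Pool.K2S Pool.PB Pool.S6C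
open Pool.GEN Pool.CHT Pool.CHX Pool.ISO Pool.LA91 Pool.AVG71 Pool.AVG5 Pool.D2F2 Pool.AVG57
open Pool.PB.Trl (rt rt_mem t_rt)
open Pool.D2R (hgt)
open Pool.KVA (MI)
open Pool.KAF (rs Pr)
open Pool.FS21 (oth)
open Pool.BFL (Pb)
open Pool.LV64

/-- **The digits of a closed gradient are few bits** given the time and the context. -/
theorem vd_few {Ω β : Type} [Fintype Ω] {c k K : ℕ} {d : VD Ω β c k}
    {ρ₁ ρ₂ ν₁ ν₂ σ₁ σ₂ υ : Type} {p : Ω → ℝ} {Rj : Ω → ρ₁}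
    {Rx : Ω → ρ₂} {nj : Ω → ν₁} {nx : Ω → ν₂} {bj : Ω → σ₁} {bx : Ω → σ₂} {V : Ω → υ}
    {M : Ω → Fin c → ℤ} {Fv e B : ℝ} (H : d.Hyp K p Rj Rx nj nx bj bx V M Fv e B)
    {x : Ω → ℝ} {Y : ℕ} (hx : Det p d.bb (fun ω => ⌊(2 : ℝ) ^ Y * x ω⌋))
    (mu : LamV β c k K → Polynomial ℝ) {U δ : ℝ} (hU : ∀ ω, 0 < p ω → |x ω| ≤ U) (hδ : 0 ≤ δ) :
    CH p (fun ω => ⌊(2 : ℝ) ^ Y * x ω⌋) (fun ω => (d.th ω, d.g K ω)) ≤
      5 * e + (Real.log 2 + (Pb p (fun ω => δ < |x ω - (mu (d.L K ω)).eval (d.th ω)|) *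
        Real.log (2 * (2 * (2 ^ Y * U + 1)) + 1) +
        Real.log (2 * (2 ^ Y * (2 * δ) + 1) + 1))) := by
  have hp := H.law
  have h0 := hp.nonneg
  refine few_closed hp x d.th (d.L K) (d.g K) mu ?_ hU hδ
  have h1 := H.h1
  have h2 : MI p d.T (d.L K) (d.g K) = MI p d.th (d.L K) (d.g K) +
      MI p d.bb (d.L K) (fun ω => (d.th ω, d.g K ω)) :=
    Pool.AVG71.mi_two h0 d.th d.bb (d.L K) (d.g K)
  have h3 : 0 ≤ MI p d.th (d.L K) (d.g K) := by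
    rw [MI_eq h0]
    have := CH_mono_cond h0 (X := d.th) (W' := fun ω => (d.L K ω, d.g K ω)) (W := d.g K)
      (fun ω ν _ _ e => (Prod.ext_iff.mp e).2)
    linarith
  have h4 := Pool.LV64.MI_proc h0 (f := fun ω => ⌊(2 : ℝ) ^ Y * x ω⌋) (f' := d.bb) (d.L K)
    (fun ω => (d.th ω, d.g K ω)) hx
  linarith

/-- **Closed gradients of a target with an arbitrary path**, on one event. `Qr`: the condition of the
rows, any function of the time and of the context. -/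
theorem pp_clo (C k K : ℕ) (hK : 1 ≤ K) {h x₀ σ ε : ℝ} (hh : 0 < h) (hh1 : h ≤ 1) (hx : 0 < x₀)
    (hxh : x₀ < h) (hσ : 0 < σ) (hε : 0 < ε) :
    ∃ ι π₀ : ℝ, 0 < ι ∧ 0 < π₀ ∧ ∃ X₀ : ℕ,
      ∀ {m J : ℕ} {F : Fam m J} {c : ℕ → Fin m} {mv : Fin k → ℕ} {Xt : Fin C → ℕ}
        {q w W X mm D : ℕ} {γ : ℕ → ℕ} {B : F.Ω → Prop}
        {G₀ : PtT F → ℕ → MvPolynomial (Option (Fin m)) ℝ}
        {H : LnT F → ℕ → MvPolynomial (Option (Fin m)) ℝ} {gg : F.Ω → Fin C → Fin k → ℝ}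
        {tp : F.Ω → Fin C → Polynomial ℝ}
        {ζ ζ' υ' χ₁ χ₂ ρ₁ ρ₂ τ₁ τ₂ κ : Type} {z : F.Ω → ζ} {zw : F.Ω → ζ'} {Yc : F.Ω → υ'}
        {Cj : F.Ω → χ₁} {Cx : F.Ω → χ₂} {Rj : F.Ω → ρ₁} {Rx : F.Ω → ρ₂}
        {nT : F.Ω → τ₁} {bT : F.Ω → τ₂} {Qr : F.Ω → κ} {Nb : Fin k → ℝ}
        {p : F.Ω → ℝ} {Nf Nn Nx Nu Nv : Fin k → ℕ → ℝ} {U e : ℝ}
        (_ : PrP F c mv Xt q w W X mm D K γ B G₀ H gg tp z zw Yc Cj Cx Rj Rx
          (Vm F c mv w H Nb) nT bT p Nf Nn Nx Nu Nv U (k * (X * Real.log 2)) e) (i0 : Fin C)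
        {Ur ψ ε₀ : ℝ} {j₀ : ℕ}, (∀ j, ((γ (mv j) + q + X : ℕ) : ℝ) ≤ Nb j) →
        (∀ j, Nb j ≤ (γ (mv j) + q + (X + mm) : ℕ)) →
        (∀ ω, 0 < p ω → ∀ u, u ≠ i0 → ∀ j, gg ω u j = 0) →
        Det p (fun ω => (rt F W ω, (adP F c mv Xt q w W X mm γ gg H tp z).g K ω)) Qr →
        (∀ E : Set F.Ω, π₀ ≤ Pr p E → CH (rs p E) (fun ω => Mt F W Xt tp ω i0)
          (fun ω => ((Mt F W Xt tp ω i0 / 2 ^ X, oth i0 (Mt F W Xt tp ω)),
            (Vm F c mv w H Nb ω, Qr ω))) ≤ Ur) →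
        TimW F p W j₀ ε₀ ψ → Det p (slam F W) z → Det p (slam F W) tp → X₀ ≤ X → W + X ≤ J →
        ψ * J ≤ ι * X → (mm : ℝ) ≤ ι * X → Evp C k K U e ≤ ι * X →
        Ur ≤ (1 - h) * X * Real.log 2 + ι * X →
        ∃ mu : LnT F → Fin k → Polynomial ℝ, (∀ s j, (mu s j).natDegree ≤ K) ∧
          (∀ s j (u : ℝ), |(mu s j).eval u| ≤ (K + 1) * (|u| + 1) ^ K * (2 : ℝ) ^ (σ * X)) ∧
          Pb p (fun ω => ∃ j, (2 : ℝ) ^ (-(x₀ * X)) <
            |gg ω i0 j - (mu (slam F W ω) j).eval (rt F W ω)|) ≤ ε ∧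
          ∀ Y : ℕ, (Y : ℝ) ≤ x₀ * X → ∀ j, CH p (fun ω => ⌊(2 : ℝ) ^ Y * gg ω i0 j⌋)
            (fun ω => (rt F W ω, (adP F c mv Xt q w W X mm γ gg H tp z).g K ω)) ≤ ε * X := by
  classical
  obtain ⟨ε₁, hε₁⟩ : ∃ ε₁ : ℝ, ε₁ = ε / 32 := ⟨_, rfl⟩
  have hε₁0 : 0 < ε₁ := by rw [hε₁]; linarith
  have hε₁1 : ε₁ ≤ ε := by rw [hε₁]; linarith
  obtain ⟨x₁, hx₁⟩ : ∃ x₁ : ℝ, x₁ = (x₀ + h) / 2 := ⟨_, rfl⟩
  obtain ⟨ι₀, π₀, hι₀, hπ₀, X1, hX1⟩ := vd_clo C k K hK hh hh1 (x₀ := x₁)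
    (by rw [hx₁]; linarith) (by rw [hx₁]; linarith) hσ hε₁0
  obtain ⟨ι, hι⟩ : ∃ ι : ℝ, ι = min (ι₀ / 4) (min 1 (ε / 40)) := ⟨_, rfl⟩
  have hιp : 0 < ι := by
    rw [hι]
    exact lt_min (by linarith) (lt_min one_pos (by linarith))
  have hι4 : ι ≤ ι₀ / 4 := by rw [hι]; exact min_le_left _ _
  have hι1' : ι ≤ 1 := by rw [hι]; exact (min_le_right _ _).trans (min_le_left _ _)
  have hι5 : ι ≤ ε / 40 := by rw [hι]; exact (min_le_right _ _).trans (min_le_right _ _)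
  have hι2 : ι ≤ ι₀ / 2 := by linarith
  obtain ⟨ι₁, hι₁⟩ : ∃ ι₁ : ℝ, ι₁ = ι₀ / 4 := ⟨_, rfl⟩
  have hι1 : ι ≤ ι₁ := by rw [hι₁]; exact hι4
  have hι1' : ι₁ ≤ ι₀ / 4 := by rw [hι₁]
  have hι1p : 0 < ι₁ := by rw [hι₁]; linarith
  obtain ⟨Kc, hKc⟩ : ∃ Kc : ℝ, Kc = 2 * (2 * (K + 1 + k) + (k + 1 + 2 * (((K : ℝ) + 1) *
    (k + 1))) + 1) + 1 := ⟨_, rfl⟩
  obtain ⟨X4, hX4⟩ := exists_nat_ge (Real.log Kc / (ι₀ / 4))
  obtain ⟨X2, hX2⟩ := exists_nat_ge ((Real.log (k + 1) / Real.log 2) / (ι₀ / 2))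
  obtain ⟨X3, hX3⟩ := exists_nat_ge (1 / (x₁ - x₀))
  obtain ⟨X5, hX5⟩ := exists_nat_ge ((8 * ε₁ + 4) / (ε / 4))
  have hl2 : 0 < Real.log 2 := Real.log_pos (by norm_num)
  have hl2' : Real.log 2 ≤ 1 := by
    have := Real.log_two_lt_d9
    linarith
  have hk0 : (0 : ℝ) ≤ k := Nat.cast_nonneg k
  have hxx : 0 < x₁ - x₀ := by rw [hx₁]; linarith
  refine ⟨ι, π₀, hιp, hπ₀, max X1 (max X2 (max X3 (max X4 X5))), ?_⟩
  intro m J F c mv Xt q w W X mm D γ B G₀ H gg tp ζ ζ' υ' χ₁ χ₂ ρ₁ ρ₂ τ₁ τ₂ κ z zw Yc Cj Cx Rj Rx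
    nT bT Qr Nb p Nf Nn Nx Nu Nv U e P i0 Ur ψ ε₀ j₀ hN1 hN2 hside hQr hrow hT hz htp hX hJ hψ
    hmm hEv hUr
  have hp := P.law
  have h0 := hp.nonneg
  have hXR : (0 : ℝ) ≤ X := Nat.cast_nonneg _
  have hXa : X1 ≤ X := (le_max_left _ _).trans hX
  have hXb : max X2 (max X3 (max X4 X5)) ≤ X := (le_max_right _ _).trans hX
  have hXc : max X3 (max X4 X5) ≤ X := (le_max_right _ _).trans hXb
  have hXd : max X4 X5 ≤ X := (le_max_right _ _).trans hXc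
  have n2 : Real.log (k + 1) / Real.log 2 ≤ ι₀ / 2 * X := by
    have h1 : (X2 : ℝ) ≤ X := by exact_mod_cast (le_max_left _ _).trans hXb
    have h2 := hX2.trans h1
    rw [div_le_iff₀ (by linarith)] at h2
    linarith
  have n3 : 1 ≤ (x₁ - x₀) * X := by
    have h1 : (X3 : ℝ) ≤ X := by exact_mod_cast (le_max_left _ _).trans hXc
    have h2 := hX3.trans h1
    rw [div_le_iff₀ hxx] at h2
    linarith
  have n4 : Real.log Kc ≤ ι₀ / 4 * X := by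
    have h1 : (X4 : ℝ) ≤ X := by exact_mod_cast (le_max_left _ _).trans hXd
    have h2 := hX4.trans h1
    rw [div_le_iff₀ (by linarith)] at h2
    linarith
  have n5 : 8 * ε₁ + 4 ≤ ε / 4 * X := by
    have h1 : (X5 : ℝ) ≤ X := by exact_mod_cast (le_max_right _ _).trans hXd
    have h2 := hX5.trans h1
    rw [div_le_iff₀ (by linarith)] at h2
    linarith
  have hιX : ι * X ≤ ι₀ / 2 * X := mul_le_mul_of_nonneg_right hι2 hXR
  have hι₀X : 0 ≤ ι₀ / 2 * X := by positivity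
  have hyp := P.hypm hN1 hN2
  have hLs := adP_L (c := c) (mv := mv) (Xt := Xt) (q := q) (w := w)
    (X := X) (mm := mm) (γ := γ) (gg := gg) (H := H) p hz htp K
  have hbbr := fun (ω : F.Ω) (u : Fin C) (j : Fin k) => adP_bbr (c := c) (mv := mv)
    (Xt := Xt) (q := q) (w := w) (W := W) (X := X) (mm := mm) (γ := γ) (gg := gg)
    (H := H) (tp := tp) (z := z) ω u j
  have hside' : ∀ ω, 0 < p ω → ∀ u, u ≠ i0 → ∀ j,
      (adP F c mv Xt q w W X mm γ gg H tp z).bb ω u j = 0 := by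
    intro ω hω u hu j
    show ((⌊(2 : ℝ) ^ X * gg ω u j⌋ : ℤ) : ℝ) / 2 ^ X = 0
    rw [hside ω hω u hu j, mul_zero, Int.floor_zero, Int.cast_zero, zero_div]
  have hU1 := P.mU
  have hU0 := P.grd.U0
  have hmX : (mm : ℝ) ≤ ι₀ / 2 * X := hmm.trans hιX
  have hXt' : (adP F c mv Xt q w W X mm γ gg H tp z).X = X := rfl
  have hm' : (adP F c mv Xt q w W X mm γ gg H tp z).m = mm := rfl
  have hEu : VD.Eu k K mm (k * (U + 1) + 1) ≤ ι₀ / 2 * X := by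
    obtain ⟨K1, hK1⟩ : ∃ K1 : ℝ, K1 = 2 * (((K : ℝ) + 1) * (k + 1)) := ⟨_, rfl⟩
    have g0 : 0 ≤ K1 := by rw [hK1]; positivity
    have gK : (0 : ℝ) ≤ K := Nat.cast_nonneg K
    have g1 : (1 : ℝ) ≤ 2 ^ (ι₁ * X) := Real.one_le_rpow one_le_two (by positivity)
    have g2 : (2 : ℝ) ^ mm ≤ 2 ^ (ι₁ * X) := by
      rw [← Real.rpow_natCast]
      exact Real.rpow_le_rpow_of_exponent_le one_le_two
        (hmm.trans (mul_le_mul_of_nonneg_right hι1 hXR))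
    have g3 : (k : ℝ) * (U + 1) ≤ k * 2 ^ (ι₁ * X) :=
      mul_le_mul_of_nonneg_left (hU1.trans g2) hk0
    have g4 : (k : ℝ) * 2 ^ mm ≤ k * 2 ^ (ι₁ * X) := mul_le_mul_of_nonneg_left g2 hk0
    have hKc1 : Kc = 2 * (2 * (K + 1 + k) + (k + 1 + K1) + 1) + 1 := by rw [hKc, hK1]
    have hKc0 : 0 < Kc := by rw [hKc1]; positivity
    unfold VD.Eu
    rw [← hK1]
    have g5 : 2 * (2 * (K + 1 + k * (2 : ℝ) ^ mm) + (k * (U + 1) + 1 + K1) + 1) + 1 ≤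
        Kc * 2 ^ (ι₁ * X) := by
      rw [hKc1]
      have g6 : (K : ℝ) + 1 ≤ (K + 1) * 2 ^ (ι₁ * X) :=
        le_mul_of_one_le_right (by positivity) g1
      have g7 : K1 ≤ K1 * 2 ^ (ι₁ * X) := le_mul_of_one_le_right g0 g1
      nlinarith
    have g8 : 0 < 2 * (2 * (K + 1 + k * (2 : ℝ) ^ mm) + (k * (U + 1) + 1 + K1) + 1) + 1 := by
      positivity
    refine (Real.log_le_log g8 g5).trans ?_
    rw [Real.log_mul hKc0.ne' (by positivity), Real.log_rpow two_pos]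
    have g9 : ι₁ * X * Real.log 2 ≤ ι₁ * X :=
      mul_le_of_le_one_right (by positivity) hl2'
    have g10 : ι₁ * X ≤ ι₀ / 4 * X := mul_le_mul_of_nonneg_right hι1' hXR
    linarith
  have hrow' : ∀ G : F.Ω → Prop, π₀ ≤ Pe p G → CH (cond p G True)
      (fun ω => Mt F W Xt tp ω i0)
      (fun ω => (oth i0 (Mt F W Xt tp ω),
        (Vm F c mv w H Nb ω, ((adP F c mv Xt q w W X mm γ gg H tp z).T ω,
          (adP F c mv Xt q w W X mm γ gg H tp z).g K ω)))) ≤ Ur + ι₀ / 2 * X := by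
    intro G hG
    have hG0 : 0 < Pe p G := hπ₀.trans_le hG
    have hql : IsLaw (cond p G True) := ⟨cond_nonneg h0 G True, sum_cond p G hG0.ne'⟩
    have hqp : ∀ ω, 0 < cond p G True ω → 0 < p ω := fun ω hω =>
      ((cond_pos_iff h0 G True ω).mp hω).1
    have h1 := hyp.row_up hql hqp i0
      (A := fun ω => oth i0 (Mt F W Xt tp ω)) (U := Ur) (by
        refine le_trans (CH_mono_cond (cond_nonneg h0 G True) fun ω ν a b e => ?_)
          (hrow {ω | G ω} hG)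
        obtain ⟨e3, e4⟩ := Prod.ext_iff.mp e
        obtain ⟨e5, e6⟩ := Prod.ext_iff.mp e3
        obtain ⟨e7, e8⟩ := Prod.ext_iff.mp e4
        obtain ⟨e9, e10⟩ := Prod.ext_iff.mp e8
        exact Prod.ext (Prod.ext e5 e6) (Prod.ext e7 (hQr ω ν (hqp ω a) (hqp ν b)
          (Prod.ext (Prod.ext_iff.mp e9).1 e10))))
    rw [hm'] at h1
    linarith
  have htime : X * Real.log 2 - ι₀ * X ≤
      CH p (fun ω => ⌊(2 : ℝ) ^ X * (adP F c mv Xt q w W X mm γ gg H tp z).th ω⌋)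
        ((adP F c mv Xt q w W X mm γ gg H tp z).L K) := by
    have h1 := hT.f X hJ
    have h2 : CH p (fun ω => ⌊(2 : ℝ) ^ X * F.tw W ω⌋) (slam F W) ≤
        CH p (fun ω => ⌊(2 : ℝ) ^ X * F.tw W ω⌋)
          ((adP F c mv Xt q w W X mm γ gg H tp z).L K) := CH_mono_cond h0 hLs
    have hth : (adP F c mv Xt q w W X mm γ gg H tp z).th = F.tw W := by
      funext ω
      exact (tw_rt F P.WJ ω).symm
    rw [hth]
    linarith
  have hB : (k : ℝ) * (U + 1) + 1 ≤ (2 : ℝ) ^ (ι₀ * X) := by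
    have h1 : (2 : ℝ) ^ mm ≤ 2 ^ (ι₀ / 2 * X) := by
      rw [← Real.rpow_natCast]
      exact Real.rpow_le_rpow_of_exponent_le one_le_two (hmm.trans hιX)
    have h2 : (k : ℝ) + 1 ≤ 2 ^ (ι₀ / 2 * X) := by
      rw [div_le_iff₀ hl2] at n2
      have e1 : (0 : ℝ) < k + 1 := by positivity
      rw [← Real.exp_log e1, Real.rpow_def_of_pos two_pos]
      exact Real.exp_le_exp.2 (by linarith)
    have h3 : (1 : ℝ) ≤ 2 ^ (ι₀ / 2 * X) := Real.one_le_rpow one_le_two hι₀X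
    calc (k : ℝ) * (U + 1) + 1 ≤ k * 2 ^ (ι₀ / 2 * X) + 2 ^ (ι₀ / 2 * X) :=
          add_le_add (mul_le_mul_of_nonneg_left (hU1.trans h1) hk0) h3
      _ = (k + 1) * 2 ^ (ι₀ / 2 * X) := by ring
      _ ≤ 2 ^ (ι₀ / 2 * X) * 2 ^ (ι₀ / 2 * X) :=
          mul_le_mul_of_nonneg_right h2 (by positivity)
      _ = 2 ^ (ι₀ * X) := by
          rw [← Real.rpow_add two_pos]
          congr 1
          ring
  -- the hypotheses with the error `ι₀ X`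
  have he2 : Evp C k K U e ≤ ι₀ * X := by linarith
  have hyp2 : (adP F c mv Xt q w W X mm γ gg H tp z).Hyp K p Rj Rx
      (fun ω => (jetm F c mv w H Nn ω, nT ω)) (jetm F c mv w H Nx)
      (fun ω => (jetm F c mv w H Nf ω, bT ω)) (jetm F c mv w H Nf) (Vm F c mv w H Nb)
      (Mt F W Xt tp)
      (k * (X * Real.log 2) + k * cV K) (ι₀ * X) (k * (U + 1) + 1) := hyp.mono he2
  obtain ⟨mu, m1, m2, m3⟩ := hX1 p (adP F c mv Xt q w W X mm γ gg H tp z) Rj Rx _ _ _ _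
    (Vm F c mv w H Nb) _ _ (ι₀ * X) (k * (U + 1) + 1) (Ur + ι₀ / 2 * X) i0 hXa hyp2 hside' htime
    hrow' le_rfl
    (hmm.trans (by
      show ι * X ≤ ι₀ * X
      linarith)) hB (by
      show Ur + ι₀ / 2 * X ≤ (1 - h) * X * Real.log 2 + ι₀ * X
      linarith)
  have e7 : 2 * (2 : ℝ) ^ (-(x₁ * X)) ≤ 2 ^ (-(x₀ * X)) := by
    have h1 : 2 * (2 : ℝ) ^ (-(x₁ * X)) = 2 ^ (1 + -(x₁ * X)) := by
      rw [Real.rpow_add two_pos, Real.rpow_one]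
    rw [h1]
    refine Real.rpow_le_rpow_of_exponent_le one_le_two ?_
    linarith
  have e5 : (1 : ℝ) / 2 ^ X ≤ 2 ^ (-(x₁ * X)) := by
    rw [one_div, ← Real.rpow_natCast, ← Real.rpow_neg two_pos.le]
    refine Real.rpow_le_rpow_of_exponent_le one_le_two ?_
    have h1 : x₁ ≤ 1 := by rw [hx₁]; linarith
    have h2 : x₁ * X ≤ 1 * X := mul_le_mul_of_nonneg_right h1 hXR
    linarith
  have hmain : ∀ ω, ∀ j, (2 : ℝ) ^ (-(x₀ * X)) <
      |gg ω i0 j - (mu ((adP F c mv Xt q w W X mm γ gg H tp z).L K ω) j).eval (rt F W ω)| →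
      (2 : ℝ) ^ (-(x₁ * X)) < |(adP F c mv Xt q w W X mm γ gg H tp z).bb ω i0 j -
        (mu ((adP F c mv Xt q w W X mm γ gg H tp z).L K ω) j).eval (rt F W ω)| := by
    intro ω j hj
    have e1 := hbbr ω i0 j
    have e8 := abs_sub_le (gg ω i0 j)
      ((adP F c mv Xt q w W X mm γ gg H tp z).bb ω i0 j)
      ((mu ((adP F c mv Xt q w W X mm γ gg H tp z).L K ω) j).eval (rt F W ω))
    linarith
  have m4 : Pb p (fun ω => ∃ j, (2 : ℝ) ^ (-(x₀ * X)) <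
      |gg ω i0 j - (mu ((adP F c mv Xt q w W X mm γ gg H tp z).L K ω) j).eval (rt F W ω)|) ≤
      ε₁ := le_trans (Pb_le_Pb h0 fun ω _ ⟨j, hj⟩ => ⟨j, hmain ω j hj⟩) m3
  obtain ⟨f, hf1, hf2⟩ := lift_line hLs mu (fun _ => 0)
  refine ⟨f, fun s j => ?_, fun s j u => ?_, le_trans (Pb_le_Pb h0 ?_) (m4.trans hε₁1),
    fun Y hY j => ?_⟩
  · rcases hf1 s with h1 | ⟨a, h1⟩
    · rw [h1]
      simp
    · rw [h1]
      exact m1 a j
  · rcases hf1 s with h1 | ⟨a, h1⟩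
    · rw [h1]
      simp only [Polynomial.eval_zero, abs_zero]
      positivity
    · rw [h1]
      exact m2 a j u
  · rintro ω hω ⟨j, hj⟩
    rw [hf2 ω hω] at hj
    exact ⟨j, hj⟩
  · -- few bits
    have hYX : Y ≤ X := by
      have h1 : x₀ * X ≤ 1 * X := mul_le_mul_of_nonneg_right (by linarith) hXR
      have h2 : (Y : ℝ) ≤ X := by linarith
      exact_mod_cast h2
    have hdet : Det p (adP F c mv Xt q w W X mm γ gg H tp z).bb
        (fun ω => ⌊(2 : ℝ) ^ Y * gg ω i0 j⌋) := by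
      intro ω ν _ _ e
      have e1 : ((⌊(2 : ℝ) ^ X * gg ω i0 j⌋ : ℤ) : ℝ) / 2 ^ X =
        ((⌊(2 : ℝ) ^ X * gg ν i0 j⌋ : ℤ) : ℝ) / 2 ^ X := congrFun (congrFun e i0) j
      have p1 : (2 : ℝ) ^ X ≠ 0 := by positivity
      have e2 : ⌊(2 : ℝ) ^ X * gg ω i0 j⌋ = ⌊(2 : ℝ) ^ X * gg ν i0 j⌋ := by
        rw [div_left_inj' p1] at e1
        exact_mod_cast e1
      have e3 : ∀ x : ℝ, ⌊(2 : ℝ) ^ Y * x⌋ = ⌊(2 : ℝ) ^ X * x⌋ / ((2 ^ (X - Y) : ℕ) : ℤ) := by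
        intro x
        have h1 := Int.floor_div_natCast ((2 : ℝ) ^ X * x) (2 ^ (X - Y))
        have e4 : (2 : ℝ) ^ X * x / ((2 ^ (X - Y) : ℕ) : ℝ) = 2 ^ Y * x := by
          have e5 : (2 : ℝ) ^ X = 2 ^ Y * 2 ^ (X - Y) := by
            rw [← pow_add]
            congr 1
            omega
          rw [e5]
          push_cast
          field_simp
        rw [e4] at h1
        exact h1
      show ⌊(2 : ℝ) ^ Y * gg ω i0 j⌋ = ⌊(2 : ℝ) ^ Y * gg ν i0 j⌋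
      rw [e3, e3, e2]
    have h1 := vd_few hyp hdet (fun l => mu l j) (U := U) (δ := (2 : ℝ) ^ (-(x₀ * X)))
      (fun ω hω => P.grd.bm ω (P.sup ω hω) i0 j) (by positivity)
    have h2 : Pb p (fun ω => (2 : ℝ) ^ (-(x₀ * X)) < |gg ω i0 j -
        (mu ((adP F c mv Xt q w W X mm γ gg H tp z).L K ω) j).eval
          ((adP F c mv Xt q w W X mm γ gg H tp z).th ω)|) ≤ ε₁ :=
      le_trans (Pb_le_Pb h0 fun ω _ hj => ⟨j, hj⟩) m4
    have hU2 : U ≤ 2 ^ mm := by linarith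
    have p2 : (1 : ℝ) ≤ 2 ^ (Y + mm) := one_le_pow₀ (by norm_num)
    have h3 : Real.log (2 * (2 * (2 ^ Y * U + 1)) + 1) ≤ (X + mm + 4) * Real.log 2 := by
      have h4 : 2 * (2 * ((2 : ℝ) ^ Y * U + 1)) + 1 ≤ 2 ^ (Y + mm + 4) := by
        have h5 : (2 : ℝ) ^ Y * U ≤ 2 ^ Y * 2 ^ mm :=
          mul_le_mul_of_nonneg_left hU2 (by positivity)
        rw [← pow_add] at h5
        rw [pow_add _ (Y + mm) 4]
        linarith
      have h6 : (0 : ℝ) < 2 * (2 * (2 ^ Y * U + 1)) + 1 := by positivity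
      refine (Real.log_le_log h6 h4).trans ?_
      rw [Real.log_pow]
      refine mul_le_mul_of_nonneg_right ?_ hl2.le
      push_cast
      have : (Y : ℝ) ≤ X := by exact_mod_cast hYX
      linarith
    have h7 : Real.log (2 * ((2 : ℝ) ^ Y * (2 * 2 ^ (-(x₀ * X))) + 1) + 1) ≤ 3 * Real.log 2 := by
      have h8 : (2 : ℝ) ^ Y * (2 : ℝ) ^ (-(x₀ * X)) ≤ 1 := by
        rw [← Real.rpow_natCast, ← Real.rpow_add two_pos]
        refine Real.rpow_le_one_of_one_le_of_nonpos one_le_two ?_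
        linarith
      have h9 : 3 * Real.log 2 = Real.log 8 := by
        rw [← Real.log_rpow two_pos]
        norm_num
      rw [h9]
      refine Real.log_le_log (by positivity) ?_
      linarith
    have h10 : Pb p (fun ω => (2 : ℝ) ^ (-(x₀ * X)) < |gg ω i0 j -
        (mu ((adP F c mv Xt q w W X mm γ gg H tp z).L K ω) j).eval
          ((adP F c mv Xt q w W X mm γ gg H tp z).th ω)|) *
        Real.log (2 * (2 * (2 ^ Y * U + 1)) + 1) ≤ ε₁ * (X + mm + 4) := by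
      have g1 : 0 ≤ Real.log (2 * (2 * (2 ^ Y * U + 1)) + 1) := by
        refine Real.log_nonneg ?_
        have : 0 ≤ (2 : ℝ) ^ Y * U := by positivity
        linarith
      have g2 := mul_le_mul_of_nonneg_right h2 g1
      have g3 : ε₁ * Real.log (2 * (2 * (2 ^ Y * U + 1)) + 1) ≤
          ε₁ * ((X + mm + 4) * Real.log 2) := mul_le_mul_of_nonneg_left h3 hε₁0.le
      have g4 : ((X : ℝ) + mm + 4) * Real.log 2 ≤ X + mm + 4 :=
        mul_le_of_le_one_right (by positivity) hl2'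
      have g5 := mul_le_mul_of_nonneg_left g4 hε₁0.le
      linarith
    have h11 : ε₁ * ((X : ℝ) + mm + 4) ≤ 2 * ε₁ * X + 4 * ε₁ := by
      have g1 : (mm : ℝ) ≤ X := by
        have : ι * X ≤ 1 * X := mul_le_mul_of_nonneg_right (by linarith) hXR
        linarith
      nlinarith
    have h12 : 5 * Evp C k K U e ≤ ε / 8 * X := by
      have g1 : ι * X ≤ ε / 40 * X := mul_le_mul_of_nonneg_right hι5 hXR
      linarith
    have h13 : 2 * ε₁ * X = ε / 16 * X := by rw [hε₁]; ring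
    have h14 : CH p (fun ω => ⌊(2 : ℝ) ^ Y * gg ω i0 j⌋) (fun ω => (rt F W ω,
        (adP F c mv Xt q w W X mm γ gg H tp z).g K ω)) =
      CH p (fun ω => ⌊(2 : ℝ) ^ Y * gg ω i0 j⌋) (fun ω =>
        ((adP F c mv Xt q w W X mm γ gg H tp z).th ω,
        (adP F c mv Xt q w W X mm γ gg H tp z).g K ω)) := rfl
    rw [h14]
    have h15 : 0 ≤ ε * X := by positivity
    linarith

end Pool.VS64
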