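import Pool.Agent.H64.VS.Prp
import Pool.Agent.H64.VS.Few

/-!
# Closed gradients of a target with an arbitrary path, on one event

`Mt`: digits of the heights of the targets. `pp_clo`: from the inputs `PrP` and the row of one target
given the digits of the others: its gradient in the directions of the moved places is closed, and its
digits are few bits given the time and the context.
-/

set_option autoImplicit false

namespace Pool.VS64

open Finset Real MvPolynomial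
open Pool.Agent.H49.Ent Pool.Agent.H32.Dense Pool.STK Pool.KA Pool.KSAT Pool.K2S Pool.PB Pool.S6C
open Pool.GEN Pool.CHT Pool.CHX Pool.ISO Pool.LA91 Pool.AVG71 Pool.AVG5 Pool.D2F2 Pool.AVG57
open Pool.PB.Trl (rt rt_mem t_rt)
open Pool.D2R (hgt)
open Pool.KVA (MI)
open Pool.KAF (rs Pr)
open Pool.FS21 (oth)
open Pool.BFL (Pb)
open Pool.LV64

variable {m J : ℕ}

/-- The digits of the heights of the targets. -/
noncomputable def Mt (F : Fam m J) {C : ℕ} (W : ℕ) (Xt : Fin C → ℕ)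
    (tp : F.Ω → Fin C → Polynomial ℝ) (ω : F.Ω) (u : Fin C) : ℤ :=
  ⌊(2 : ℝ) ^ Xt u * (tp ω u).eval (rt F W ω)⌋

/-- The error of `PrP.hypm`. -/
noncomputable def Evp (C k K : ℕ) (U e : ℝ) : ℝ :=
  (C + 1) * (4 * e + (cE0 k K U + cV K)) + k * cV K

section

variable {F : Fam m J} {c : ℕ → Fin m} {k C : ℕ} {mv : Fin k → ℕ} {Xt : Fin C → ℕ}
  {q w W X mm D K : ℕ} {γ : ℕ → ℕ} {H : LnT F → ℕ → MvPolynomial (Option (Fin m)) ℝ}
  {gg : F.Ω → Fin C → Fin k → ℝ} {tp : F.Ω → Fin C → Polynomial ℝ} {ζ : Type} {z : F.Ω → ζ}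
  {p : F.Ω → ℝ}

/-- The value of the own path of a moved place. -/
theorem adP_A0 (hwW : w ≤ W) (hW : W ≤ J) (ω : F.Ω) (j : Fin k) :
    ((adP F c mv Xt q w W X mm γ gg H tp z).A ω j).eval (rt F W ω) =
      2 ^ (γ (mv j) + q) * ojet F (c (mv j)) 0 (H (slam F w ω) (mv j)) ω :=
  adV_A0 (tg := fun _ : Fin C => 0) (qt := fun _ => 0) (Xt := Xt) (X := X) (mm := mm) (gg := gg)
    (z := z) hwW hW ω j

/-- The code of the line is a function of the line and the window. -/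
theorem adP_L (p : F.Ω → ℝ) (hz : Det p (slam F W) z) (ht : Det p (slam F W) tp) (K : ℕ) :
    Det p (slam F W) ((adP F c mv Xt q w W X mm γ gg H tp z).L K) := by
  intro ω ν hω hν e
  have z2 : (adP F c mv Xt q w W X mm γ gg H tp z).z ω =
      (adP F c mv Xt q w W X mm γ gg H tp z).z ν := hz ω ν hω hν e
  have P1 : (adP F c mv Xt q w W X mm γ gg H tp z).P ω =
      (adP F c mv Xt q w W X mm γ gg H tp z).P ν := ht ω ν hω hν e
  have A1 : (adP F c mv Xt q w W X mm γ gg H tp z).A ω =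
      (adP F c mv Xt q w W X mm γ gg H tp z).A ν := by
    funext j
    show Polynomial.C (2 ^ (γ (mv j) + q)) * dv W (fun s (_ : Fin m) => H (upw w W s) (mv j))
      (c (mv j)) (slam F W ω) = Polynomial.C (2 ^ (γ (mv j) + q)) *
      dv W (fun s (_ : Fin m) => H (upw w W s) (mv j)) (c (mv j)) (slam F W ν)
    rw [e]
  unfold VD.L VD.ac VD.nc
  rw [z2, P1, A1]

/-- **The field `ti`.** -/
theorem adP_ti (hp : IsLaw p) {j₀ : ℕ} {ε₀ ψ : ℝ} (hT : TimW F p W j₀ ε₀ ψ)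
    (hz : Det p (slam F W) z) (ht : Det p (slam F W) tp) (hzT : Det p z (F.T1 W)) (K : ℕ) :
    MI p (rt F W) ((adP F c mv Xt q w W X mm γ gg H tp z).L K)
      ((adP F c mv Xt q w W X mm γ gg H tp z).g K) ≤ ψ * J := by
  have h0 := hp.nonneg
  have hW : W ≤ J := by
    have := hT.le
    omega
  have hL := adP_L (c := c) (mv := mv) (Xt := Xt) (q := q) (w := w)
    (X := X) (mm := mm) (γ := γ) (gg := gg) (H := H) p hz ht K
  have hg : Det p (slam F W) ((adP F c mv Xt q w W X mm γ gg H tp z).g K) :=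
    fun ω ν a b e => VD.g_of (hL ω ν a b e)
  have hgW : Det p ((adP F c mv Xt q w W X mm γ gg H tp z).g K) (F.T1 W) :=
    fun ω ν a b e => hzT ω ν a b (Prod.ext_iff.mp e).1
  have h1 := mi_tim_code hp hT ((adP F c mv Xt q w W X mm γ gg H tp z).g K) hg hgW
    ((adP F c mv Xt q w W X mm γ gg H tp z).L K) hL (fun _ => ()) (fun _ => ())
    (fun _ _ _ _ _ => rfl) (E := 0) (by
      have e1 : MI p (fun _ : F.Ω => ()) ((adP F c mv Xt q w W X mm γ gg H tp z).L K)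
          (fun ω => (F.tw W ω, (adP F c mv Xt q w W X mm γ gg H tp z).g K ω)) = 0 := by
        rw [MI_eq h0, CH_eq_zero h0 (fun _ _ _ _ _ => rfl), CH_eq_zero h0 (fun _ _ _ _ _ => rfl),
          sub_zero]
      exact le_of_eq e1)
  rw [add_zero] at h1
  refine le_trans (le_of_eq ?_) h1
  have e0 : rt F W = F.tw W := by
    funext ω
    exact (tw_rt F hW ω).symm
  rw [e0, MI_eq h0, MI_eq h0]
  congr 1
  · refine CH_congr h0 (fun ω ν _ _ e => ?_) (fun ω ν _ _ e => ?_) (fun _ _ _ _ h => h)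
      (fun _ _ _ _ h => h)
    · exact Prod.ext (Prod.ext_iff.mp e).1 rfl
    · exact (Prod.ext_iff.mp (Prod.ext_iff.mp e).1).1
  · refine CH_congr h0 (fun ω ν _ _ e => ?_) (fun ω ν _ _ e => ?_) (fun _ _ _ _ h => h)
      (fun _ _ _ _ h => h)
    · exact Prod.ext (Prod.ext_iff.mp e).1 rfl
    · exact (Prod.ext_iff.mp (Prod.ext_iff.mp e).1).1

/-- The digits of the heights of the moved places given the codes. -/
theorem vm_p (hp : IsLaw p) (hH : ∀ s l, (H s l).totalDegree ≤ D) (hK : D + 1 ≤ K)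
    (hwW : w ≤ W) (hW : W ≤ J) {Nb : Fin k → ℝ}
    (hr : ∀ j, Nb j ≤ (γ (mv j) + q + (X + mm) : ℕ)) {𝓦 : Type} (Z : F.Ω → 𝓦)
    (hZ : ∀ ω ν, 0 < p ω → 0 < p ν → Z ω = Z ν → rt F W ω = rt F W ν ∧
      (adP F c mv Xt q w W X mm γ gg H tp z).Y K ω =
        (adP F c mv Xt q w W X mm γ gg H tp z).Y K ν ∧
      (adP F c mv Xt q w W X mm γ gg H tp z).g K ω =
        (adP F c mv Xt q w W X mm γ gg H tp z).g K ν) :
    CH p (Vm F c mv w H Nb) Z ≤ k * cV K := by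
  refine vm_h (c := c) (mv := mv) (tg := fun l : Fin 0 => l.elim0) (qt := fun l => l.elim0)
    (Xt := fun l => l.elim0) (γ := γ) (gg := fun _ l => l.elim0) (z := z) hp hH hK hwW hW hr Z
    fun ω ν hω hν e => ?_
  obtain ⟨e1, e2, e3⟩ := hZ ω ν hω hν e
  refine ⟨e1, e2, ?_⟩
  obtain ⟨e4, e5⟩ := Prod.ext_iff.mp e3
  refine Prod.ext e4 (Prod.ext ?_ (funext fun l => l.elim0))
  exact (Prod.ext_iff.mp e5).1

/-- The field `qv`. -/
theorem qv_p {U : ℝ} (hU : 0 ≤ U) (hwW : w ≤ W) (hW : W ≤ J) {Nb : Fin k → ℝ}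
    (hr : ∀ j, ((γ (mv j) + q + X : ℕ) : ℝ) ≤ Nb j) {ω ν : F.Ω}
    (hb : ∀ u j, |(adP F c mv Xt q w W X mm γ gg H tp z).bb ω u j| ≤ U)
    (hV : Vm F c mv w H Nb ω = Vm F c mv w H Nb ν)
    (hT : (adP F c mv Xt q w W X mm γ gg H tp z).T ω =
      (adP F c mv Xt q w W X mm γ gg H tp z).T ν) (u : Fin C) :
    |((adP F c mv Xt q w W X mm γ gg H tp z).Q ω u - Mt F W Xt tp ω u) -
      ((adP F c mv Xt q w W X mm γ gg H tp z).Q ν u - Mt F W Xt tp ν u)| ≤ k * U + 1 := by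
  have b1 : (adP F c mv Xt q w W X mm γ gg H tp z).bb ω =
      (adP F c mv Xt q w W X mm γ gg H tp z).bb ν := (Prod.ext_iff.mp hT).2
  have hv2 : ∀ j : Fin k, 2 ^ (γ (mv j) + q + X) *
      |ojet F (c (mv j)) 0 (H (slam F w ω) (mv j)) ω -
      ojet F (c (mv j)) 0 (H (slam F w ν) (mv j)) ν| ≤ 1 := by
    intro j
    have p1 : (0 : ℝ) < 2 ^ (γ (mv j) + q + X) := by positivity
    have p3 : (0 : ℝ) < (2 : ℝ) ^ Nb j := Real.rpow_pos_of_pos two_pos _
    have hv := near_of_floor p3 (congrFun hV j)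
    have h1 : (1 : ℝ) / 2 ^ Nb j ≤ 1 / 2 ^ (γ (mv j) + q + X) := by
      refine one_div_le_one_div_of_le p1 ?_
      rw [← Real.rpow_natCast]
      exact Real.rpow_le_rpow_of_exponent_le one_le_two (hr j)
    have h2 := hv.trans h1
    rw [le_div_iff₀ p1] at h2
    linarith
  have q1 : ∀ o : F.Ω, (adP F c mv Xt q w W X mm γ gg H tp z).Q o u =
      2 ^ Xt u * (tp o u).eval (rt F W o) -
        ∑ j, (adP F c mv Xt q w W X mm γ gg H tp z).bb o u j *
          (2 ^ (γ (mv j) + q + X) * ojet F (c (mv j)) 0 (H (slam F w o) (mv j)) o) := by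
    intro o
    have e1 : (adP F c mv Xt q w W X mm γ gg H tp z).Q o u =
        2 ^ Xt u * (tp o u).eval (rt F W o) -
          2 ^ X * ∑ j, (adP F c mv Xt q w W X mm γ gg H tp z).bb o u j *
            ((adP F c mv Xt q w W X mm γ gg H tp z).A o j).eval (rt F W o) := rfl
    rw [e1, Finset.mul_sum]
    congr 1
    refine Finset.sum_congr rfl fun j _ => ?_
    rw [adP_A0 hwW hW, pow_add _ (γ (mv j) + q) X]
    ring
  obtain ⟨b, hbe⟩ : ∃ b, b = (adP F c mv Xt q w W X mm γ gg H tp z).bb ω := ⟨_, rfl⟩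
  rw [← hbe] at hb
  rw [q1 ω, q1 ν, ← b1, ← hbe]
  unfold Mt
  obtain ⟨x, hx⟩ : ∃ x, x = (2 : ℝ) ^ Xt u * (tp ω u).eval (rt F W ω) := ⟨_, rfl⟩
  obtain ⟨x', hx'⟩ : ∃ x, x = (2 : ℝ) ^ Xt u * (tp ν u).eval (rt F W ν) := ⟨_, rfl⟩
  rw [← hx, ← hx']
  have f1 := Int.floor_le x
  have f2 := Int.lt_floor_add_one x
  have f3 := Int.floor_le x'
  have f4 := Int.lt_floor_add_one x'
  have h6 : |∑ j, b u j * (2 ^ (γ (mv j) + q + X) *
        ojet F (c (mv j)) 0 (H (slam F w ω) (mv j)) ω) -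
      ∑ j, b u j * (2 ^ (γ (mv j) + q + X) *
        ojet F (c (mv j)) 0 (H (slam F w ν) (mv j)) ν)| ≤ k * U := by
    rw [← Finset.sum_sub_distrib]
    refine (Finset.abs_sum_le_sum_abs _ _).trans ((Finset.sum_le_sum (g := fun _ => U)
      fun j _ => ?_).trans (le_of_eq ?_))
    · rw [← mul_sub, ← mul_sub, abs_mul, abs_mul,
        abs_of_pos (by positivity : (0 : ℝ) < 2 ^ (γ (mv j) + q + X))]
      calc _ ≤ U * 1 := mul_le_mul (hb u j) (hv2 j) (by positivity) hU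
        _ = U := mul_one _
    · rw [Finset.sum_const, Finset.card_univ, Fintype.card_fin, nsmul_eq_mul]
  have h7 := abs_le.mp h6
  rw [abs_le]
  constructor <;> linarith [h7.1, h7.2]

end

section

variable {F : Fam m J} {c : ℕ → Fin m} {k C : ℕ} {mv : Fin k → ℕ} {Xt : Fin C → ℕ}
  {q w W X mm D K : ℕ} {γ : ℕ → ℕ} {B : F.Ω → Prop}
  {G₀ : PtT F → ℕ → MvPolynomial (Option (Fin m)) ℝ}
  {H : LnT F → ℕ → MvPolynomial (Option (Fin m)) ℝ} {gg : F.Ω → Fin C → Fin k → ℝ}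
  {tp : F.Ω → Fin C → Polynomial ℝ}
  {ζ ζ' υ' χ₁ χ₂ ρ₁ ρ₂ τ₁ τ₂ : Type} {z : F.Ω → ζ} {zw : F.Ω → ζ'} {Yc : F.Ω → υ'}
  {Cj : F.Ω → χ₁} {Cx : F.Ω → χ₂} {Rj : F.Ω → ρ₁} {Rx : F.Ω → ρ₂}
  {nT : F.Ω → τ₁} {bT : F.Ω → τ₂} {Nb : Fin k → ℝ}
  {p : F.Ω → ℝ} {Nf Nn Nx Nu Nv : Fin k → ℕ → ℝ} {U e : ℝ}

/-- **`VD.Hyp` for the digits of the heights.** -/
theorem PrP.hypm (P : PrP F c mv Xt q w W X mm D K γ B G₀ H gg tp z zw Yc Cj Cx Rj Rx
      (Vm F c mv w H Nb) nT bT p Nf Nn Nx Nu Nv U (k * (X * Real.log 2)) e)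
    (h1 : ∀ j, ((γ (mv j) + q + X : ℕ) : ℝ) ≤ Nb j)
    (h2 : ∀ j, Nb j ≤ (γ (mv j) + q + (X + mm) : ℕ)) :
    (adP F c mv Xt q w W X mm γ gg H tp z).Hyp K p Rj Rx
      (fun ω => (jetm F c mv w H Nn ω, nT ω)) (jetm F c mv w H Nx)
      (fun ω => (jetm F c mv w H Nf ω, bT ω)) (jetm F c mv w H Nf) (Vm F c mv w H Nb)
      (Mt F W Xt tp) (k * (X * Real.log 2) + k * cV K) (Evp C k K U e) (k * (U + 1) + 1) := by
  have hp := P.law
  have h0 := hp.nonneg
  have hwW := P.wW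
  have hW := P.WJ
  have hU := P.grd.U0
  have hcV := cV_nonneg K
  have hk0 : (0 : ℝ) ≤ k := Nat.cast_nonneg k
  have hbm := fun (ω : F.Ω) (hω : 0 < p ω) (u : Fin C) (j : Fin k) => adP_bm (c := c) (mv := mv)
    (Xt := Xt) (q := q) (w := w) (W := W) (X := X) (mm := mm) (γ := γ)
    (H := H) (tp := tp) (z := z) P.grd.bm (P.sup ω hω) u j
  refine P.hyp (Bq := k * (U + 1) + 1) (eV := k * cV K) (by positivity) (by positivity) ?_ ?_
    (fun ω ν hω _ hV hTT _ u => qv_p (by linarith) hwW hW h1 (hbm ω hω) hV hTT u)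
  · have s1 := CH_le_add h0 (Vm F c mv w H Nb)
      ((adP F c mv Xt q w W X mm γ gg H tp z).Y K)
      (fun ω => ((adP F c mv Xt q w W X mm γ gg H tp z).T ω,
        (adP F c mv Xt q w W X mm γ gg H tp z).g K ω))
    have s2 := VD.CH_Y hp (adP F c mv Xt q w W X mm γ gg H tp z) K
      (fun ω => ((adP F c mv Xt q w W X mm γ gg H tp z).T ω,
        (adP F c mv Xt q w W X mm γ gg H tp z).g K ω))
    have s3 := vm_p (c := c) (mv := mv) (Xt := Xt) (γ := γ) (gg := gg) (tp := tp)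
      (z := z) hp P.deg P.DK hwW hW h2
      (fun ω => ((adP F c mv Xt q w W X mm γ gg H tp z).Y K ω,
        ((adP F c mv Xt q w W X mm γ gg H tp z).T ω,
          (adP F c mv Xt q w W X mm γ gg H tp z).g K ω)))
      (fun ω ν _ _ e => by
        obtain ⟨e1, e2⟩ := Prod.ext_iff.mp e
        obtain ⟨e3, e4⟩ := Prod.ext_iff.mp e2
        exact ⟨(Prod.ext_iff.mp e3).1, e1, e4⟩)
    have s4 : ((adP F c mv Xt q w W X mm γ gg H tp z).X : ℝ) = X := rfl
    rw [s4] at s2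
    linarith
  · have s3 := vm_p (c := c) (mv := mv) (Xt := Xt) (γ := γ) (gg := gg) (tp := tp)
      (z := z) hp P.deg P.DK hwW hW h2
      (fun ω => ((adP F c mv Xt q w W X mm γ gg H tp z).Y K ω,
        (rt F W ω, (adP F c mv Xt q w W X mm γ gg H tp z).g K ω)))
      (fun ω ν _ _ e => by
        obtain ⟨e1, e2⟩ := Prod.ext_iff.mp e
        obtain ⟨e3, e4⟩ := Prod.ext_iff.mp e2
        exact ⟨e3, e1, e4⟩)
    linarith

end

end Pool.VS64
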