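import Pool.Agent.H64.VS.Pcl

/-!
# Closed gradients of a target with an arbitrary path: the polynomial is a function of the codes
-/

set_option autoImplicit false

namespace Pool.VS64

open Finset Real MvPolynomial
open Pool.Agent.H49.Ent Pool.Agent.H32.Dense Pool.STK Pool.KA Pool.KSAT Pool.K2S Pool.PB Pool.S6C
open Pool.GEN Pool.CHT Pool.CHX Pool.ISO Pool.LA91 Pool.AVG71 Pool.AVG5 Pool.D2F2 Pool.AVG57
open Pool.PB.Trl (rt rt_mem t_rt)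
open Pool.D2R (hgt)
open Pool.KVA (MI)
open Pool.KAF (rs Pr)
open Pool.FS21 (oth)
open Pool.BFL (Pb)
open Pool.LV64

/-- **Closed gradients of a target with an arbitrary path**, on one event; the polynomial is a
function of the codes of the line. `Qr`: the condition of the rows, any function of the time and of
the context. -/
theorem pp_cloC (C k K : ℕ) (hK : 1 ≤ K) {h x₀ σ ε : ℝ} (hh : 0 < h) (hh1 : h ≤ 1) (hx : 0 < x₀)
    (hxh : x₀ < h) (hσ : 0 < σ) (hε : 0 < ε) :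
    ∃ ι π₀ : ℝ, 0 < ι ∧ 0 < π₀ ∧ ∃ X₀ : ℕ,
      ∀ {m J : ℕ} {F : Fam m J} {c : ℕ → Fin m} {mv : Fin k → ℕ} {Xt : Fin C → ℕ}
        {q w W X mm D : ℕ} {γ : ℕ → ℕ} {B : F.Ω → Prop}
        {G₀ : PtT F → ℕ → MvPolynomial (Option (Fin m)) ℝ}
        {H : LnT F → ℕ → MvPolynomial (Option (Fin m)) ℝ} {gg : F.Ω → Fin C → Fin k → ℝ}
        {tp : F.Ω → Fin C → Polynomial ℝ}
        {ζ ζ' υ' χ₁ χ₂ ρ₁ ρ₂ τ₁ τ₂ κ : Type} {z : F.Ω → ζ} {zw : F.Ω → ζ'} {Yc : F.Ω → υ'}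
        {Cj : F.Ω → χ₁} {Cx : F.Ω → χ₂} {Rj : F.Ω → ρ₁} {Rx : F.Ω → ρ₂}
        {nT : F.Ω → τ₁} {bT : F.Ω → τ₂} {Qr : F.Ω → κ} {Nb : Fin k → ℝ}
        {p : F.Ω → ℝ} {Nf Nn Nx Nu Nv : Fin k → ℕ → ℝ} {U e : ℝ}
        (_ : PrP F c mv Xt q w W X mm D K γ B G₀ H gg tp z zw Yc Cj Cx Rj Rx
          (Vm F c mv w H Nb) nT bT p Nf Nn Nx Nu Nv U (k * (X * Real.log 2)) e) (i0 : Fin C)
        {Ur ψ ε₀ : ℝ} {j₀ : ℕ}, (∀ j, ((γ (mv j) + q + X : ℕ) : ℝ) ≤ Nb j) →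
        (∀ j, Nb j ≤ (γ (mv j) + q + (X + mm) : ℕ)) →
        (∀ ω, 0 < p ω → ∀ u, u ≠ i0 → ∀ j, gg ω u j = 0) →
        Det p (fun ω => (rt F W ω, (adP F c mv Xt q w W X mm γ gg H tp z).g K ω)) Qr →
        (∀ E : Set F.Ω, π₀ ≤ Pr p E → CH (rs p E) (fun ω => Mt F W Xt tp ω i0)
          (fun ω => ((Mt F W Xt tp ω i0 / 2 ^ X, oth i0 (Mt F W Xt tp ω)),
            (Vm F c mv w H Nb ω, Qr ω))) ≤ Ur) →
        TimW F p W j₀ ε₀ ψ → Det p (slam F W) z → Det p (slam F W) tp → X₀ ≤ X → W + X ≤ J →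
        ψ * J ≤ ι * X → (mm : ℝ) ≤ ι * X → Evp C k K U e ≤ ι * X →
        Ur ≤ (1 - h) * X * Real.log 2 + ι * X →
        ∃ mu : LamV ζ C k K → Fin k → Polynomial ℝ, (∀ s j, (mu s j).natDegree ≤ K) ∧
          (∀ s j (u : ℝ), |(mu s j).eval u| ≤ (K + 1) * (|u| + 1) ^ K * (2 : ℝ) ^ (σ * X)) ∧
          Pb p (fun ω => ∃ j, (2 : ℝ) ^ (-(x₀ * X)) <
            |gg ω i0 j - (mu ((adP F c mv Xt q w W X mm γ gg H tp z).L K ω) j).eval
              (rt F W ω)|) ≤ ε ∧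
          ∀ Y : ℕ, (Y : ℝ) ≤ x₀ * X → ∀ j, CH p (fun ω => ⌊(2 : ℝ) ^ Y * gg ω i0 j⌋)
            (fun ω => (rt F W ω, (adP F c mv Xt q w W X mm γ gg H tp z).g K ω)) ≤ ε * X := by
  classical
  obtain ⟨ε₁, hε₁⟩ : ∃ ε₁ : ℝ, ε₁ = ε / 32 := ⟨_, rfl⟩
  have hε₁0 : 0 < ε₁ := by rw [hε₁]; linarith
  have hε₁1 : ε₁ ≤ ε := by rw [hε₁]; linarith
  obtain ⟨x₁, hx₁⟩ : ∃ x₁ : ℝ, x₁ = (x₀ + h) / 2 := ⟨_, rfl⟩
  obtain ⟨ι₀, π₀, hι₀, hπ₀, X1, hX1⟩ := vd_clo C k K hK hh hh1 (x₀ := x₁)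
    (by rw [hx₁]; linarith) (by rw [hx₁]; linarith) hσ hε₁0
  obtain ⟨ι, hι⟩ : ∃ ι : ℝ, ι = min (ι₀ / 4) (min 1 (ε / 40)) := ⟨_, rfl⟩
  have hιp : 0 < ι := by
    rw [hι]
    exact lt_min (by linarith) (lt_min one_pos (by linarith))
  have hι4 : ι ≤ ι₀ / 4 := by rw [hι]; exact min_le_left _ _
  have hι1' : ι ≤ 1 := by rw [hι]; exact (min_le_right _ _).trans (min_le_left _ _)
  have hι5 : ι ≤ ε / 40 := by rw [hι]; exact (min_le_right _ _).trans (min_le_right _ _)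
  have hι2 : ι ≤ ι₀ / 2 := by linarith
  obtain ⟨ι₁, hι₁⟩ : ∃ ι₁ : ℝ, ι₁ = ι₀ / 4 := ⟨_, rfl⟩
  have hι1 : ι ≤ ι₁ := by rw [hι₁]; exact hι4
  have hι1' : ι₁ ≤ ι₀ / 4 := by rw [hι₁]
  have hι1p : 0 < ι₁ := by rw [hι₁]; linarith
  obtain ⟨Kc, hKc⟩ : ∃ Kc : ℝ, Kc = 2 * (2 * (K + 1 + k) + (k + 1 + 2 * (((K : ℝ) + 1) *
    (k + 1))) + 1) + 1 := ⟨_, rfl⟩
  obtain ⟨X4, hX4⟩ := exists_nat_ge (Real.log Kc / (ι₀ / 4))
  obtain ⟨X2, hX2⟩ := exists_nat_ge ((Real.log (k + 1) / Real.log 2) / (ι₀ / 2))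
  obtain ⟨X3, hX3⟩ := exists_nat_ge (1 / (x₁ - x₀))
  obtain ⟨X5, hX5⟩ := exists_nat_ge ((8 * ε₁ + 4) / (ε / 4))
  have hl2 : 0 < Real.log 2 := Real.log_pos (by norm_num)
  have hl2' : Real.log 2 ≤ 1 := by
    have := Real.log_two_lt_d9
    linarith
  have hk0 : (0 : ℝ) ≤ k := Nat.cast_nonneg k
  have hxx : 0 < x₁ - x₀ := by rw [hx₁]; linarith
  refine ⟨ι, π₀, hιp, hπ₀, max X1 (max X2 (max X3 (max X4 X5))), ?_⟩
  intro m J F c mv Xt q w W X mm D γ B G₀ H gg tp ζ ζ' υ' χ₁ χ₂ ρ₁ ρ₂ τ₁ τ₂ κ z zw Yc Cj Cx Rj Rx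
    nT bT Qr Nb p Nf Nn Nx Nu Nv U e P i0 Ur ψ ε₀ j₀ hN1 hN2 hside hQr hrow hT hz htp hX hJ hψ
    hmm hEv hUr
  have hp := P.law
  have h0 := hp.nonneg
  have hXR : (0 : ℝ) ≤ X := Nat.cast_nonneg _
  have hXa : X1 ≤ X := (le_max_left _ _).trans hX
  have hXb : max X2 (max X3 (max X4 X5)) ≤ X := (le_max_right _ _).trans hX
  have hXc : max X3 (max X4 X5) ≤ X := (le_max_right _ _).trans hXb
  have hXd : max X4 X5 ≤ X := (le_max_right _ _).trans hXc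
  have n2 : Real.log (k + 1) / Real.log 2 ≤ ι₀ / 2 * X := by
    have h1 : (X2 : ℝ) ≤ X := by exact_mod_cast (le_max_left _ _).trans hXb
    have h2 := hX2.trans h1
    rw [div_le_iff₀ (by linarith)] at h2
    linarith
  have n3 : 1 ≤ (x₁ - x₀) * X := by
    have h1 : (X3 : ℝ) ≤ X := by exact_mod_cast (le_max_left _ _).trans hXc
    have h2 := hX3.trans h1
    rw [div_le_iff₀ hxx] at h2
    linarith
  have n4 : Real.log Kc ≤ ι₀ / 4 * X := by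
    have h1 : (X4 : ℝ) ≤ X := by exact_mod_cast (le_max_left _ _).trans hXd
    have h2 := hX4.trans h1
    rw [div_le_iff₀ (by linarith)] at h2
    linarith
  have n5 : 8 * ε₁ + 4 ≤ ε / 4 * X := by
    have h1 : (X5 : ℝ) ≤ X := by exact_mod_cast (le_max_right _ _).trans hXd
    have h2 := hX5.trans h1
    rw [div_le_iff₀ (by linarith)] at h2
    linarith
  have hιX : ι * X ≤ ι₀ / 2 * X := mul_le_mul_of_nonneg_right hι2 hXR
  have hι₀X : 0 ≤ ι₀ / 2 * X := by positivity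
  have hyp := P.hypm hN1 hN2
  have hLs := adP_L (c := c) (mv := mv) (Xt := Xt) (q := q) (w := w)
    (X := X) (mm := mm) (γ := γ) (gg := gg) (H := H) p hz htp K
  have hbbr := fun (ω : F.Ω) (u : Fin C) (j : Fin k) => adP_bbr (c := c) (mv := mv)
    (Xt := Xt) (q := q) (w := w) (W := W) (X := X) (mm := mm) (γ := γ) (gg := gg)
    (H := H) (tp := tp) (z := z) ω u j
  have hside' : ∀ ω, 0 < p ω → ∀ u, u ≠ i0 → ∀ j,
      (adP F c mv Xt q w W X mm γ gg H tp z).bb ω u j = 0 := by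
    intro ω hω u hu j
    show ((⌊(2 : ℝ) ^ X * gg ω u j⌋ : ℤ) : ℝ) / 2 ^ X = 0
    rw [hside ω hω u hu j, mul_zero, Int.floor_zero, Int.cast_zero, zero_div]
  have hU1 := P.mU
  have hU0 := P.grd.U0
  have hmX : (mm : ℝ) ≤ ι₀ / 2 * X := hmm.trans hιX
  have hXt' : (adP F c mv Xt q w W X mm γ gg H tp z).X = X := rfl
  have hm' : (adP F c mv Xt q w W X mm γ gg H tp z).m = mm := rfl
  have hEu : VD.Eu k K mm (k * (U + 1) + 1) ≤ ι₀ / 2 * X := by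
    obtain ⟨K1, hK1⟩ : ∃ K1 : ℝ, K1 = 2 * (((K : ℝ) + 1) * (k + 1)) := ⟨_, rfl⟩
    have g0 : 0 ≤ K1 := by rw [hK1]; positivity
    have gK : (0 : ℝ) ≤ K := Nat.cast_nonneg K
    have g1 : (1 : ℝ) ≤ 2 ^ (ι₁ * X) := Real.one_le_rpow one_le_two (by positivity)
    have g2 : (2 : ℝ) ^ mm ≤ 2 ^ (ι₁ * X) := by
      rw [← Real.rpow_natCast]
      exact Real.rpow_le_rpow_of_exponent_le one_le_two
        (hmm.trans (mul_le_mul_of_nonneg_right hι1 hXR))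
    have g3 : (k : ℝ) * (U + 1) ≤ k * 2 ^ (ι₁ * X) :=
      mul_le_mul_of_nonneg_left (hU1.trans g2) hk0
    have g4 : (k : ℝ) * 2 ^ mm ≤ k * 2 ^ (ι₁ * X) := mul_le_mul_of_nonneg_left g2 hk0
    have hKc1 : Kc = 2 * (2 * (K + 1 + k) + (k + 1 + K1) + 1) + 1 := by rw [hKc, hK1]
    have hKc0 : 0 < Kc := by rw [hKc1]; positivity
    unfold VD.Eu
    rw [← hK1]
    have g5 : 2 * (2 * (K + 1 + k * (2 : ℝ) ^ mm) + (k * (U + 1) + 1 + K1) + 1) + 1 ≤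
        Kc * 2 ^ (ι₁ * X) := by
      rw [hKc1]
      have g6 : (K : ℝ) + 1 ≤ (K + 1) * 2 ^ (ι₁ * X) :=
        le_mul_of_one_le_right (by positivity) g1
      have g7 : K1 ≤ K1 * 2 ^ (ι₁ * X) := le_mul_of_one_le_right g0 g1
      nlinarith
    have g8 : 0 < 2 * (2 * (K + 1 + k * (2 : ℝ) ^ mm) + (k * (U + 1) + 1 + K1) + 1) + 1 := by
      positivity
    refine (Real.log_le_log g8 g5).trans ?_
    rw [Real.log_mul hKc0.ne' (by positivity), Real.log_rpow two_pos]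
    have g9 : ι₁ * X * Real.log 2 ≤ ι₁ * X :=
      mul_le_of_le_one_right (by positivity) hl2'
    have g10 : ι₁ * X ≤ ι₀ / 4 * X := mul_le_mul_of_nonneg_right hι1' hXR
    linarith
  have hrow' : ∀ G : F.Ω → Prop, π₀ ≤ Pe p G → CH (cond p G True)
      (fun ω => Mt F W Xt tp ω i0)
      (fun ω => (oth i0 (Mt F W Xt tp ω),
        (Vm F c mv w H Nb ω, ((adP F c mv Xt q w W X mm γ gg H tp z).T ω,
          (adP F c mv Xt q w W X mm γ gg H tp z).g K ω)))) ≤ Ur + ι₀ / 2 * X := by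
    intro G hG
    have hG0 : 0 < Pe p G := hπ₀.trans_le hG
    have hql : IsLaw (cond p G True) := ⟨cond_nonneg h0 G True, sum_cond p G hG0.ne'⟩
    have hqp : ∀ ω, 0 < cond p G True ω → 0 < p ω := fun ω hω =>
      ((cond_pos_iff h0 G True ω).mp hω).1
    have h1 := hyp.row_up hql hqp i0
      (A := fun ω => oth i0 (Mt F W Xt tp ω)) (U := Ur) (by
        refine le_trans (CH_mono_cond (cond_nonneg h0 G True) fun ω ν a b e => ?_)
          (hrow {ω | G ω} hG)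
        obtain ⟨e3, e4⟩ := Prod.ext_iff.mp e
        obtain ⟨e5, e6⟩ := Prod.ext_iff.mp e3
        obtain ⟨e7, e8⟩ := Prod.ext_iff.mp e4
        obtain ⟨e9, e10⟩ := Prod.ext_iff.mp e8
        exact Prod.ext (Prod.ext e5 e6) (Prod.ext e7 (hQr ω ν (hqp ω a) (hqp ν b)
          (Prod.ext (Prod.ext_iff.mp e9).1 e10))))
    rw [hm'] at h1
    linarith
  have htime : X * Real.log 2 - ι₀ * X ≤
      CH p (fun ω => ⌊(2 : ℝ) ^ X * (adP F c mv Xt q w W X mm γ gg H tp z).th ω⌋)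
        ((adP F c mv Xt q w W X mm γ gg H tp z).L K) := by
    have h1 := hT.f X hJ
    have h2 : CH p (fun ω => ⌊(2 : ℝ) ^ X * F.tw W ω⌋) (slam F W) ≤
        CH p (fun ω => ⌊(2 : ℝ) ^ X * F.tw W ω⌋)
          ((adP F c mv Xt q w W X mm γ gg H tp z).L K) := CH_mono_cond h0 hLs
    have hth : (adP F c mv Xt q w W X mm γ gg H tp z).th = F.tw W := by
      funext ω
      exact (tw_rt F P.WJ ω).symm
    rw [hth]
    linarith
  have hB : (k : ℝ) * (U + 1) + 1 ≤ (2 : ℝ) ^ (ι₀ * X) := by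
    have h1 : (2 : ℝ) ^ mm ≤ 2 ^ (ι₀ / 2 * X) := by
      rw [← Real.rpow_natCast]
      exact Real.rpow_le_rpow_of_exponent_le one_le_two (hmm.trans hιX)
    have h2 : (k : ℝ) + 1 ≤ 2 ^ (ι₀ / 2 * X) := by
      rw [div_le_iff₀ hl2] at n2
      have e1 : (0 : ℝ) < k + 1 := by positivity
      rw [← Real.exp_log e1, Real.rpow_def_of_pos two_pos]
      exact Real.exp_le_exp.2 (by linarith)
    have h3 : (1 : ℝ) ≤ 2 ^ (ι₀ / 2 * X) := Real.one_le_rpow one_le_two hι₀X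
    calc (k : ℝ) * (U + 1) + 1 ≤ k * 2 ^ (ι₀ / 2 * X) + 2 ^ (ι₀ / 2 * X) :=
          add_le_add (mul_le_mul_of_nonneg_left (hU1.trans h1) hk0) h3
      _ = (k + 1) * 2 ^ (ι₀ / 2 * X) := by ring
      _ ≤ 2 ^ (ι₀ / 2 * X) * 2 ^ (ι₀ / 2 * X) :=
          mul_le_mul_of_nonneg_right h2 (by positivity)
      _ = 2 ^ (ι₀ * X) := by
          rw [← Real.rpow_add two_pos]
          congr 1
          ring
  -- the hypotheses with the error `ι₀ X`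
  have he2 : Evp C k K U e ≤ ι₀ * X := by linarith
  have hyp2 : (adP F c mv Xt q w W X mm γ gg H tp z).Hyp K p Rj Rx
      (fun ω => (jetm F c mv w H Nn ω, nT ω)) (jetm F c mv w H Nx)
      (fun ω => (jetm F c mv w H Nf ω, bT ω)) (jetm F c mv w H Nf) (Vm F c mv w H Nb)
      (Mt F W Xt tp)
      (k * (X * Real.log 2) + k * cV K) (ι₀ * X) (k * (U + 1) + 1) := hyp.mono he2
  obtain ⟨mu, m1, m2, m3⟩ := hX1 p (adP F c mv Xt q w W X mm γ gg H tp z) Rj Rx _ _ _ _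
    (Vm F c mv w H Nb) _ _ (ι₀ * X) (k * (U + 1) + 1) (Ur + ι₀ / 2 * X) i0 hXa hyp2 hside' htime
    hrow' le_rfl
    (hmm.trans (by
      show ι * X ≤ ι₀ * X
      linarith)) hB (by
      show Ur + ι₀ / 2 * X ≤ (1 - h) * X * Real.log 2 + ι₀ * X
      linarith)
  have e7 : 2 * (2 : ℝ) ^ (-(x₁ * X)) ≤ 2 ^ (-(x₀ * X)) := by
    have h1 : 2 * (2 : ℝ) ^ (-(x₁ * X)) = 2 ^ (1 + -(x₁ * X)) := by
      rw [Real.rpow_add two_pos, Real.rpow_one]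
    rw [h1]
    refine Real.rpow_le_rpow_of_exponent_le one_le_two ?_
    linarith
  have e5 : (1 : ℝ) / 2 ^ X ≤ 2 ^ (-(x₁ * X)) := by
    rw [one_div, ← Real.rpow_natCast, ← Real.rpow_neg two_pos.le]
    refine Real.rpow_le_rpow_of_exponent_le one_le_two ?_
    have h1 : x₁ ≤ 1 := by rw [hx₁]; linarith
    have h2 : x₁ * X ≤ 1 * X := mul_le_mul_of_nonneg_right h1 hXR
    linarith
  have hmain : ∀ ω, ∀ j, (2 : ℝ) ^ (-(x₀ * X)) <
      |gg ω i0 j - (mu ((adP F c mv Xt q w W X mm γ gg H tp z).L K ω) j).eval (rt F W ω)| →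
      (2 : ℝ) ^ (-(x₁ * X)) < |(adP F c mv Xt q w W X mm γ gg H tp z).bb ω i0 j -
        (mu ((adP F c mv Xt q w W X mm γ gg H tp z).L K ω) j).eval (rt F W ω)| := by
    intro ω j hj
    have e1 := hbbr ω i0 j
    have e8 := abs_sub_le (gg ω i0 j)
      ((adP F c mv Xt q w W X mm γ gg H tp z).bb ω i0 j)
      ((mu ((adP F c mv Xt q w W X mm γ gg H tp z).L K ω) j).eval (rt F W ω))
    linarith
  have m4 : Pb p (fun ω => ∃ j, (2 : ℝ) ^ (-(x₀ * X)) <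
      |gg ω i0 j - (mu ((adP F c mv Xt q w W X mm γ gg H tp z).L K ω) j).eval (rt F W ω)|) ≤
      ε₁ := le_trans (Pb_le_Pb h0 fun ω _ ⟨j, hj⟩ => ⟨j, hmain ω j hj⟩) m3
  refine ⟨mu, m1, m2, m4.trans hε₁1, fun Y hY j => ?_⟩
  · -- few bits
    have hYX : Y ≤ X := by
      have h1 : x₀ * X ≤ 1 * X := mul_le_mul_of_nonneg_right (by linarith) hXR
      have h2 : (Y : ℝ) ≤ X := by linarith
      exact_mod_cast h2
    have hdet : Det p (adP F c mv Xt q w W X mm γ gg H tp z).bb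
        (fun ω => ⌊(2 : ℝ) ^ Y * gg ω i0 j⌋) := by
      intro ω ν _ _ e
      have e1 : ((⌊(2 : ℝ) ^ X * gg ω i0 j⌋ : ℤ) : ℝ) / 2 ^ X =
        ((⌊(2 : ℝ) ^ X * gg ν i0 j⌋ : ℤ) : ℝ) / 2 ^ X := congrFun (congrFun e i0) j
      have p1 : (2 : ℝ) ^ X ≠ 0 := by positivity
      have e2 : ⌊(2 : ℝ) ^ X * gg ω i0 j⌋ = ⌊(2 : ℝ) ^ X * gg ν i0 j⌋ := by
        rw [div_left_inj' p1] at e1
        exact_mod_cast e1
      have e3 : ∀ x : ℝ, ⌊(2 : ℝ) ^ Y * x⌋ = ⌊(2 : ℝ) ^ X * x⌋ / ((2 ^ (X - Y) : ℕ) : ℤ) := by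
        intro x
        have h1 := Int.floor_div_natCast ((2 : ℝ) ^ X * x) (2 ^ (X - Y))
        have e4 : (2 : ℝ) ^ X * x / ((2 ^ (X - Y) : ℕ) : ℝ) = 2 ^ Y * x := by
          have e5 : (2 : ℝ) ^ X = 2 ^ Y * 2 ^ (X - Y) := by
            rw [← pow_add]
            congr 1
            omega
          rw [e5]
          push_cast
          field_simp
        rw [e4] at h1
        exact h1
      show ⌊(2 : ℝ) ^ Y * gg ω i0 j⌋ = ⌊(2 : ℝ) ^ Y * gg ν i0 j⌋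
      rw [e3, e3, e2]
    have h1 := vd_few hyp hdet (fun l => mu l j) (U := U) (δ := (2 : ℝ) ^ (-(x₀ * X)))
      (fun ω hω => P.grd.bm ω (P.sup ω hω) i0 j) (by positivity)
    have h2 : Pb p (fun ω => (2 : ℝ) ^ (-(x₀ * X)) < |gg ω i0 j -
        (mu ((adP F c mv Xt q w W X mm γ gg H tp z).L K ω) j).eval
          ((adP F c mv Xt q w W X mm γ gg H tp z).th ω)|) ≤ ε₁ :=
      le_trans (Pb_le_Pb h0 fun ω _ hj => ⟨j, hj⟩) m4
    have hU2 : U ≤ 2 ^ mm := by linarith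
    have p2 : (1 : ℝ) ≤ 2 ^ (Y + mm) := one_le_pow₀ (by norm_num)
    have h3 : Real.log (2 * (2 * (2 ^ Y * U + 1)) + 1) ≤ (X + mm + 4) * Real.log 2 := by
      have h4 : 2 * (2 * ((2 : ℝ) ^ Y * U + 1)) + 1 ≤ 2 ^ (Y + mm + 4) := by
        have h5 : (2 : ℝ) ^ Y * U ≤ 2 ^ Y * 2 ^ mm :=
          mul_le_mul_of_nonneg_left hU2 (by positivity)
        rw [← pow_add] at h5
        rw [pow_add _ (Y + mm) 4]
        linarith
      have h6 : (0 : ℝ) < 2 * (2 * (2 ^ Y * U + 1)) + 1 := by positivity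
      refine (Real.log_le_log h6 h4).trans ?_
      rw [Real.log_pow]
      refine mul_le_mul_of_nonneg_right ?_ hl2.le
      push_cast
      have : (Y : ℝ) ≤ X := by exact_mod_cast hYX
      linarith
    have h7 : Real.log (2 * ((2 : ℝ) ^ Y * (2 * 2 ^ (-(x₀ * X))) + 1) + 1) ≤ 3 * Real.log 2 := by
      have h8 : (2 : ℝ) ^ Y * (2 : ℝ) ^ (-(x₀ * X)) ≤ 1 := by
        rw [← Real.rpow_natCast, ← Real.rpow_add two_pos]
        refine Real.rpow_le_one_of_one_le_of_nonpos one_le_two ?_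
        linarith
      have h9 : 3 * Real.log 2 = Real.log 8 := by
        rw [← Real.log_rpow two_pos]
        norm_num
      rw [h9]
      refine Real.log_le_log (by positivity) ?_
      linarith
    have h10 : Pb p (fun ω => (2 : ℝ) ^ (-(x₀ * X)) < |gg ω i0 j -
        (mu ((adP F c mv Xt q w W X mm γ gg H tp z).L K ω) j).eval
          ((adP F c mv Xt q w W X mm γ gg H tp z).th ω)|) *
        Real.log (2 * (2 * (2 ^ Y * U + 1)) + 1) ≤ ε₁ * (X + mm + 4) := by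
      have g1 : 0 ≤ Real.log (2 * (2 * (2 ^ Y * U + 1)) + 1) := by
        refine Real.log_nonneg ?_
        have : 0 ≤ (2 : ℝ) ^ Y * U := by positivity
        linarith
      have g2 := mul_le_mul_of_nonneg_right h2 g1
      have g3 : ε₁ * Real.log (2 * (2 * (2 ^ Y * U + 1)) + 1) ≤
          ε₁ * ((X + mm + 4) * Real.log 2) := mul_le_mul_of_nonneg_left h3 hε₁0.le
      have g4 : ((X : ℝ) + mm + 4) * Real.log 2 ≤ X + mm + 4 :=
        mul_le_of_le_one_right (by positivity) hl2'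
      have g5 := mul_le_mul_of_nonneg_left g4 hε₁0.le
      linarith
    have h11 : ε₁ * ((X : ℝ) + mm + 4) ≤ 2 * ε₁ * X + 4 * ε₁ := by
      have g1 : (mm : ℝ) ≤ X := by
        have : ι * X ≤ 1 * X := mul_le_mul_of_nonneg_right (by linarith) hXR
        linarith
      nlinarith
    have h12 : 5 * Evp C k K U e ≤ ε / 8 * X := by
      have g1 : ι * X ≤ ε / 40 * X := mul_le_mul_of_nonneg_right hι5 hXR
      linarith
    have h13 : 2 * ε₁ * X = ε / 16 * X := by rw [hε₁]; ring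
    have h14 : CH p (fun ω => ⌊(2 : ℝ) ^ Y * gg ω i0 j⌋) (fun ω => (rt F W ω,
        (adP F c mv Xt q w W X mm γ gg H tp z).g K ω)) =
      CH p (fun ω => ⌊(2 : ℝ) ^ Y * gg ω i0 j⌋) (fun ω =>
        ((adP F c mv Xt q w W X mm γ gg H tp z).th ω,
        (adP F c mv Xt q w W X mm γ gg H tp z).g K ω)) := rfl
    rw [h14]
    have h15 : 0 ≤ ε * X := by positivity
    linarith

end Pool.VS64
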