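import Pool.Agent.H87.V0S.Plf
import Pool.Agent.H87.V0S.Law
import Pool.Agent.H64.VS.Pcc
import Pool.Agent.H68.OWN.Js

/-!
# The codes of a target path from its values

`jp_few`: a family of polynomials `f` on the lines, whose values at the time of the sample are few
bits given a record `R`, a function `c` of the line and the time, and whose digits have rows which are
not full given `c`: all coefficients are few bits given the same data. `hgt_grd`: the values of the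
target path from the gradients. `dj_of`, `few_rec`: the record is removed from the condition.
-/

set_option autoImplicit false

namespace Pool.VS64

open Finset Real MvPolynomial
open Pool.Agent.H49.Ent Pool.Agent.H32.Dense Pool.STK Pool.KA Pool.KSAT Pool.K2S Pool.PB Pool.S6C
open Pool.GEN Pool.CHT Pool.CHX Pool.ISO Pool.LA91 Pool.AVG71 Pool.AVG5 Pool.D2F2 Pool.AVG57
open Pool.PB.Trl (rt rt_mem t_rt)
open Pool.D2R (hgt)
open Pool.KVA (MI)
open Pool.OWN68 (CH_chain2 pj der_small of_floor_div uw uw_abs)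
open Pool.LV64
open Pool.AJ18 (all_jets AjH NFg)
open Pool.V0S (rsc rsc_deg rsc_eval rsc_pj0 rsc_coef uw_rt)

variable {m J : ℕ}

/-- The coefficients in the parameter of the window from the others. -/
theorem rsc_size (D : ℕ) : ∃ C : ℝ, 0 ≤ C ∧ ∀ {m J : ℕ} (F : Fam m J) (σ : ℝ)
    (f : LnT F → Polynomial ℝ) (x : LnT F) (s : ℝ), (f x).natDegree ≤ D →
    (∀ i ≤ D, |σ * (f x).coeff i| ≤ s) → ∀ i, |(rsc F σ f x).coeff i| ≤ C * s := by
  obtain ⟨C, hC, hb⟩ := KAL.TAY.coef_bound D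
  refine ⟨C * (D + 1), by positivity, ?_⟩
  intro m J F σ f x s hf hs i
  have hs0 : 0 ≤ s := (abs_nonneg _).trans (hs 0 (Nat.zero_le D))
  have hdeg : (rsc F σ f x).natDegree ≤ D := by
    unfold rsc
    refine (Polynomial.natDegree_C_mul_le _ _).trans (Polynomial.natDegree_comp_le.trans ?_)
    have h1 : (Polynomial.C (1 / 2) * Polynomial.X + Polynomial.C (1 / 2) :
        Polynomial ℝ).natDegree ≤ 1 := Polynomial.natDegree_linear_le
    calc _ ≤ D * 1 := Nat.mul_le_mul hf h1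
      _ = D := mul_one D
  rcases le_or_gt i D with hi | hi
  · refine (hb _ ((D + 1) * s) hdeg (fun t t0 t1 => ?_) i hi).trans (le_of_eq (by ring))
    rw [rsc_eval, Polynomial.eval_eq_sum_range' (lt_of_le_of_lt hf (Nat.lt_succ_self D)),
      Finset.mul_sum]
    refine (Finset.abs_sum_le_sum_abs _ _).trans ((Finset.sum_le_sum (g := fun _ => s)
      fun j hj => ?_).trans (le_of_eq ?_))
    · rw [Finset.mem_range] at hj
      rw [← mul_assoc, abs_mul, abs_pow]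
      have hu : |(t + 1) / 2| ≤ 1 := by
        rw [abs_le]
        constructor <;> linarith
      calc |σ * (f x).coeff j| * |(t + 1) / 2| ^ j ≤ s * 1 :=
            mul_le_mul (hs j (by omega)) (pow_le_one₀ (abs_nonneg _) hu) (by positivity) hs0
        _ = s := mul_one s
    · rw [Finset.sum_const, Finset.card_range, nsmul_eq_mul]
      push_cast
      ring
  · rw [Polynomial.coeff_eq_zero_of_natDegree_lt (lt_of_le_of_lt hdeg hi), abs_zero]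
    positivity

/-- **The codes of a polynomial of the line from its values**, with rows. -/
theorem jp_few (D : ℕ) (hD : 1 ≤ D) {h : ℝ} (hh : 0 < h) (hh1 : h ≤ 1) {ε : ℝ} (hε : 0 < ε) :
    ∃ δ : ℝ, 0 < δ ∧ ∃ c₀ : ℝ, 0 < c₀ ∧ ∃ N₀ : ℕ, 0 < N₀ ∧
    ∀ {w μ : ℝ} (_ : 0 ≤ w) (_ : 0 < μ) (_ : w + μ ≤ 1), ∃ J₀ : ℕ, ∀ J ≥ J₀, ∀ {m : ℕ}
      (F : Fam m J) (A : F.Ω → Prop) (_ : 0 < Pe F.p A) (f : LnT F → Polynomial ℝ) {𝒞 ρ : Type}
      (c : LnT F → 𝒞) (R : F.Ω → ρ) (σ : ℝ), (∀ x, (f x).natDegree ≤ D) →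
      (∀ ω, A ω → ∀ i ≤ D, |σ * (f (slam F ⌊w * J⌋₊ ω)).coeff i| ≤ 2 ^ ((1 + δ) * μ * J)) →
      (J : ℝ) * Real.log 2 - δ * μ * J ≤
        CH (Pool.Agent.H49.Ent.cond F.p A True) F.T (fun ω => (F.l ω, F.Z ω)) →
      CH (Pool.Agent.H49.Ent.cond F.p A True)
        (fun ω => ⌊σ * (f (slam F ⌊w * J⌋₊ ω)).eval (rt F ⌊w * J⌋₊ ω)⌋)
        (fun ω => (R ω, (c (slam F ⌊w * J⌋₊ ω), F.W ω))) ≤ δ * μ * J →
      (∀ B : F.Ω → Prop, Sub B A → c₀ * Pe F.p A ≤ Pe F.p B → ∀ i j : ℕ, i ≤ j → j ≤ N₀ →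
        CH (Pool.Agent.H49.Ent.cond F.p B True)
          (fun ω => ⌊σ * (f (slam F ⌊w * J⌋₊ ω)).eval (rt F ⌊w * J⌋₊ ω) /
            2 ^ ((μ * i / N₀) * J)⌋)
          (fun ω => (⌊σ * (f (slam F ⌊w * J⌋₊ ω)).eval (rt F ⌊w * J⌋₊ ω) /
            2 ^ ((μ * j / N₀) * J)⌋, (c (slam F ⌊w * J⌋₊ ω), F.W ω))) ≤
          ((1 - h) * (μ * j / N₀ - μ * i / N₀) * Real.log 2 + δ * μ) * J) →
      CH (Pool.Agent.H49.Ent.cond F.p A True)
        (fun ω (j : Fin (D + 1)) => ⌊σ * (f (slam F ⌊w * J⌋₊ ω)).coeff j⌋)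
        (fun ω => (R ω, (c (slam F ⌊w * J⌋₊ ω), F.W ω))) ≤ ε * μ * J := by
  obtain ⟨ε', hε'⟩ : ∃ ε' : ℝ, ε' = ε / (2 * (D + 2)) := ⟨_, rfl⟩
  have hε0 : 0 < ε' := by rw [hε']; positivity
  have hεe : ε' * (D + 2) = ε / 2 := by
    rw [hε']
    field_simp
  obtain ⟨δ₁, hδ₁, c₀, hc₀, N₀, hN₀, H⟩ := all_jets D hD hh hh1 hε0
  obtain ⟨C₁, hC₁, hsize⟩ := rsc_size D
  obtain ⟨C₂, hC₂, hder⟩ := der_small D
  obtain ⟨C₃, hC₃, hcoef⟩ := rsc_coef D
  obtain ⟨δ, hδ⟩ : ∃ δ : ℝ, δ = min (δ₁ / 4) 1 := ⟨_, rfl⟩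
  have hδ0 : 0 < δ := by rw [hδ]; exact lt_min (by positivity) one_pos
  have hδa : δ ≤ δ₁ / 4 := by rw [hδ]; exact min_le_left _ _
  have hδb : δ ≤ 1 := by rw [hδ]; exact min_le_right _ _
  refine ⟨δ, hδ0, c₀, hc₀, N₀, hN₀, ?_⟩
  intro w μ hw hμ hwμ
  obtain ⟨J₁, H⟩ := H (w := w) (μ := μ) hw hμ hwμ
  obtain ⟨c₆, hc₆⟩ : ∃ c₆ : ℝ, c₆ = Real.log (2 * (2 * (C₂ * C₁) + 1) + 1) := ⟨_, rfl⟩
  obtain ⟨c₇, hc₇⟩ : ∃ c₇ : ℝ, c₇ = Real.log (2 * C₃ + 3) := ⟨_, rfl⟩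
  have hc6 : 0 ≤ c₆ := by
    rw [hc₆]
    refine Real.log_nonneg ?_
    have : 0 ≤ C₂ * C₁ := by positivity
    linarith
  have hc7 : 0 ≤ c₇ := by rw [hc₇]; exact Real.log_nonneg (by linarith)
  obtain ⟨J₂, hJ₂⟩ := exists_nat_ge (2 * c₆ / (δ₁ * μ) + 2 * (D + 1) * c₇ / (ε * μ))
  refine ⟨max J₁ J₂, ?_⟩
  intro J hJ m F A hA f 𝒞 ρ c R σ hf hsz htim hval hrow
  have hJ0 : (0 : ℝ) ≤ J := Nat.cast_nonneg J
  have hJ2 : (J₂ : ℝ) ≤ J := by exact_mod_cast (le_max_right _ _).trans hJ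
  have k1 : 0 ≤ 2 * c₆ / (δ₁ * μ) := by positivity
  have k2 : 0 ≤ 2 * (D + 1) * c₇ / (ε * μ) := by positivity
  have k3 : c₆ ≤ δ₁ / 2 * μ * J := by
    have h1 : 2 * c₆ / (δ₁ * μ) ≤ J := by linarith
    rw [div_le_iff₀ (by positivity)] at h1
    linarith
  have k4 : (D + 1) * c₇ ≤ ε / 2 * μ * J := by
    have h1 : 2 * (D + 1) * c₇ / (ε * μ) ≤ J := by linarith
    rw [div_le_iff₀ (by positivity)] at h1
    linarith
  obtain ⟨W, hW⟩ : ∃ W : ℕ, W = ⌊w * J⌋₊ := ⟨_, rfl⟩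
  have hWJ : W ≤ J := by
    rw [hW]
    refine Nat.floor_le_of_le ?_
    have : w * J ≤ 1 * J := mul_le_mul_of_nonneg_right (by linarith) hJ0
    linarith
  have hHJ := H J ((le_max_left _ _).trans hJ) F A hA (rsc F σ f) c
    (fun ω => (R ω, (c (slam F ⌊w * J⌋₊ ω), F.W ω)))
  rw [← hW] at hHJ hval hsz hrow ⊢
  have hq := isLaw_cond F.isLaw hA
  have h0 := hq.nonneg
  obtain ⟨Y, hY⟩ : ∃ Y : F.Ω → ρ × 𝒞 × (ℕ × F.ζ), Y = fun ω => (R ω, (c (slam F W ω), F.W ω)) :=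
    ⟨_, rfl⟩
  rw [← hY] at hHJ hval ⊢
  have hμJ : 0 ≤ μ * J := by positivity
  have hδ1 : δ * μ * J ≤ δ₁ / 4 * μ * J := by
    have := mul_le_mul_of_nonneg_right hδa hμJ
    linarith
  have hδ2 : δ₁ / 4 * μ * J ≤ δ₁ * μ * J := by
    have : 0 ≤ δ₁ * (μ * J) := by positivity
    linarith
  have key := hHJ ⟨rsc_deg F σ hf, by linarith, ?_, ?_, ?_, ?_⟩ ?_
  · -- the conclusion
    obtain ⟨s, hs⟩ : ∃ s : ℝ, s = 2 ^ (ε' * μ * J) := ⟨_, rfl⟩
    have hs1 : 1 ≤ s := by rw [hs]; exact Real.one_le_rpow one_le_two (by positivity)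
    have hs0 : 0 < s := by linarith
    rw [← hs] at key
    obtain ⟨Kc, hKc⟩ : ∃ Kc : F.Ω → (Fin (D + 1) → ℤ) × (Fin (D + 1) → ℤ), Kc = fun ω =>
      (fun j : Fin (D + 1) => ⌊pj F (rsc F σ f) W j ω / s⌋,
        fun j : Fin (D + 1) => ⌊(rsc F σ f (slam F W ω)).coeff j / s⌋) := ⟨_, rfl⟩
    rw [← hKc] at key
    have g1 := CH_le_add h0 (fun ω (j : Fin (D + 1)) => ⌊σ * (f (slam F W ω)).coeff j⌋) Kc Y
    have g2 := Pool.LV64.CH_pi h0 (fun ω => (Kc ω, Y ω)) (e := Real.log (2 * (C₃ * s + 1) + 1))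
      (D + 1) (fun ω (j : Fin (D + 1)) => ⌊σ * (f (slam F W ω)).coeff j⌋) (fun j => by
        refine Pool.AVG71.CH_pair_int hq _ _ (by positivity) fun ω ν hω hν e => ?_
        refine Pool.V0S.fl_near ?_
        refine hcoef F σ f _ _ s hf (fun i hi => ?_) j (by omega)
        have e1 := (Prod.ext_iff.mp e).1
        rw [hKc] at e1
        have e2 := congrFun (Prod.ext_iff.mp e1).2 (⟨i, by omega⟩ : Fin (D + 1))
        exact of_floor_div hs0 e2)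
    have g3 : Real.log (2 * (C₃ * s + 1) + 1) ≤ c₇ + ε' * μ * J := by
      have a1 : 2 * (C₃ * s + 1) + 1 ≤ (2 * C₃ + 3) * s := by nlinarith
      refine (Real.log_le_log (by positivity) a1).trans ?_
      rw [Real.log_mul (by positivity) (by positivity), ← hc₇, hs, Real.log_rpow two_pos]
      have a2 : Real.log 2 ≤ 1 := by
        have := Real.log_two_lt_d9
        linarith
      have a3 : ε' * μ * J * Real.log 2 ≤ ε' * μ * J * 1 :=
        mul_le_mul_of_nonneg_left a2 (by positivity)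
      linarith
    have g4 : ((D + 1 : ℕ) : ℝ) * Real.log (2 * (C₃ * s + 1) + 1) ≤
        (D + 1) * (c₇ + ε' * μ * J) := by
      push_cast
      exact mul_le_mul_of_nonneg_left g3 (by positivity)
    have g5 : ε' * μ * J + (D + 1) * (ε' * μ * J) = ε / 2 * μ * J := by
      have : ε' * μ * J + (D + 1) * (ε' * μ * J) = ε' * (D + 2) * μ * J := by ring
      rw [this, hεe]
    have g6 : ε / 2 * μ * J + ε / 2 * μ * J = ε * μ * J := by ring
    linarith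
  · -- key
    intro ω ν _ _ e
    rw [hY] at e
    have e1 : F.W ω = F.W ν := (Prod.ext_iff.mp (Prod.ext_iff.mp e).2).2
    exact ⟨(Prod.ext_iff.mp e1).1, (Prod.ext_iff.mp e1).2⟩
  · -- ctx
    rw [CH_eq_zero h0 fun ω ν _ _ e => by
      rw [hY] at e
      exact (Prod.ext_iff.mp (Prod.ext_iff.mp e).2).1]
    positivity
  · -- hgt
    have e1 : (fun ω => ⌊pj F (rsc F σ f) W 0 ω⌋) =
        fun ω => ⌊σ * (f (slam F W ω)).eval (rt F W ω)⌋ := by
      funext ω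
      rw [rsc_pj0 F σ f hWJ]
    rw [e1]
    linarith
  · -- natural sizes
    intro j hj hj0
    obtain ⟨t, ht⟩ : ∃ t : ℝ, t = 2 ^ (δ * μ * J) := ⟨_, rfl⟩
    have ht1 : 1 ≤ t := by rw [ht]; exact Real.one_le_rpow one_le_two (by positivity)
    have hs0 : (0 : ℝ) < 2 ^ (μ * J) := Real.rpow_pos_of_pos two_pos _
    have hts : (2 : ℝ) ^ ((1 + δ) * μ * J) = t * 2 ^ (μ * J) := by
      rw [ht, ← Real.rpow_add two_pos]
      congr 1
      ring
    have hB : ∀ ω : F.Ω, 0 < Pool.Agent.H49.Ent.cond F.p A True ω →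
        |pj F (rsc F σ f) W j ω / 2 ^ (μ * J)| ≤ C₂ * C₁ * t := by
      intro ω hω
      rw [abs_div, abs_of_pos hs0, div_le_iff₀ hs0]
      unfold pj
      have h1 := hsize F σ f (slam F W ω) (t * 2 ^ (μ * J)) (hf _)
        (fun i hi => (hsz ω (of_cond_pos hω) i hi).trans (le_of_eq hts))
      have h2 := hder (rsc F σ f (slam F W ω)) j (uw F W ω) (C₁ * (t * 2 ^ (μ * J)))
        (rsc_deg F σ hf _) (uw_abs F W ω) (fun i _ => h1 i)
      linarith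
    refine le_trans (Pool.AVG71.CH_pair_int hq _ _ (D := 2 * (C₂ * C₁ * t) + 1)
      (by positivity) fun ω ν hω hν _ => Pool.V0S.fl_near ?_) ?_
    · have a1 := hB ω hω
      have a2 := hB ν hν
      rw [abs_le] at a1 a2 ⊢
      constructor <;> linarith [a1.1, a1.2, a2.1, a2.2]
    · have a1 : 2 * (2 * (C₂ * C₁ * t) + 1) + 1 ≤ (2 * (2 * (C₂ * C₁) + 1) + 1) * t := by
        nlinarith
      have a0 : 0 ≤ C₂ * C₁ := by positivity
      refine (Real.log_le_log (by positivity) a1).trans ?_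
      rw [Real.log_mul (by positivity) (by positivity), ← hc₆, ht, Real.log_rpow two_pos]
      have a2 : Real.log 2 ≤ 1 := by
        have := Real.log_two_lt_d9
        linarith
      have a3 : δ * μ * J * Real.log 2 ≤ δ * μ * J * 1 :=
        mul_le_mul_of_nonneg_left a2 (by positivity)
      linarith
  · -- the rows
    intro B hB hm i j hij hj
    have h1 := hrow B hB hm i j hij hj
    have e1 : ∀ x : ℝ, (fun ω => ⌊pj F (rsc F σ f) W 0 ω / x⌋) =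
        fun ω => ⌊σ * (f (slam F W ω)).eval (rt F W ω) / x⌋ := by
      intro x
      funext ω
      rw [rsc_pj0 F σ f hWJ]
    have e2 : ∀ x : ℝ, (fun ω => (⌊pj F (rsc F σ f) W 0 ω / x⌋, (c (slam F W ω), F.W ω))) =
        fun ω => (⌊σ * (f (slam F W ω)).eval (rt F W ω) / x⌋, (c (slam F W ω), F.W ω)) := by
      intro x
      funext ω
      rw [rsc_pj0 F σ f hWJ]
    rw [e1, e2]
    refine h1.trans (mul_le_mul_of_nonneg_right ?_ hJ0)
    have : δ * μ ≤ δ₁ * μ := mul_le_mul_of_nonneg_right (by linarith) hμ.le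
    linarith

/-- A context which is a function of the line and the window on the event. -/
theorem det_fun {Ω α β : Type} {p : Ω → ℝ} {X : Ω → α} {Y : Ω → β}
    (h : ∀ ω ν, 0 < p ω → 0 < p ν → X ω = X ν → Y ω = Y ν) :
    ∃ g : α → Option β, ∀ ω, 0 < p ω → g (X ω) = some (Y ω) := by
  classical
  refine ⟨fun x => if hx : ∃ ω, 0 < p ω ∧ X ω = x then some (Y hx.choose) else none, ?_⟩
  intro ω hω
  have hx : ∃ ν, 0 < p ν ∧ X ν = X ω := ⟨ω, hω, rfl⟩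
  simp only [dif_pos hx]
  exact congrArg some (h _ _ hx.choose_spec.1 hω hx.choose_spec.2)

/-- **The codes of a polynomial of the line from its values**, with rows; the context is any function
`cc` of the sample which the line and the window determine. -/
theorem jp_ev (D : ℕ) (hD : 1 ≤ D) {h : ℝ} (hh : 0 < h) (hh1 : h ≤ 1) {ε : ℝ} (hε : 0 < ε) :
    ∃ δ : ℝ, 0 < δ ∧ ∃ c₀ : ℝ, 0 < c₀ ∧ ∃ N₀ : ℕ, 0 < N₀ ∧
    ∀ {w μ : ℝ} (_ : 0 ≤ w) (_ : 0 < μ) (_ : w + μ ≤ 1), ∃ J₀ : ℕ, ∀ J ≥ J₀, ∀ {m : ℕ}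
      (F : Fam m J) (A : F.Ω → Prop) (_ : 0 < Pe F.p A) (f : LnT F → Polynomial ℝ) {𝒞 ρ : Type}
      (cc : F.Ω → 𝒞) (R : F.Ω → ρ) (σ : ℝ),
      Det (Pool.Agent.H49.Ent.cond F.p A True) (slam F ⌊w * J⌋₊) cc →
      (∀ x, (f x).natDegree ≤ D) →
      (∀ ω, A ω → ∀ i ≤ D, |σ * (f (slam F ⌊w * J⌋₊ ω)).coeff i| ≤ 2 ^ ((1 + δ) * μ * J)) →
      (J : ℝ) * Real.log 2 - δ * μ * J ≤
        CH (Pool.Agent.H49.Ent.cond F.p A True) F.T (fun ω => (F.l ω, F.Z ω)) →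
      CH (Pool.Agent.H49.Ent.cond F.p A True)
        (fun ω => ⌊σ * (f (slam F ⌊w * J⌋₊ ω)).eval (rt F ⌊w * J⌋₊ ω)⌋)
        (fun ω => (R ω, (cc ω, F.W ω))) ≤ δ * μ * J →
      (∀ B : F.Ω → Prop, Sub B A → c₀ * Pe F.p A ≤ Pe F.p B → ∀ i j : ℕ, i ≤ j → j ≤ N₀ →
        CH (Pool.Agent.H49.Ent.cond F.p B True)
          (fun ω => ⌊σ * (f (slam F ⌊w * J⌋₊ ω)).eval (rt F ⌊w * J⌋₊ ω) /
            2 ^ ((μ * i / N₀) * J)⌋)
          (fun ω => (⌊σ * (f (slam F ⌊w * J⌋₊ ω)).eval (rt F ⌊w * J⌋₊ ω) /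
            2 ^ ((μ * j / N₀) * J)⌋, (cc ω, F.W ω))) ≤
          ((1 - h) * (μ * j / N₀ - μ * i / N₀) * Real.log 2 + δ * μ) * J) →
      CH (Pool.Agent.H49.Ent.cond F.p A True)
        (fun ω (j : Fin (D + 1)) => ⌊σ * (f (slam F ⌊w * J⌋₊ ω)).coeff j⌋)
        (fun ω => (R ω, (cc ω, F.W ω))) ≤ ε * μ * J := by
  obtain ⟨δ, hδ, c₀, hc₀, N₀, hN₀, H⟩ := jp_few D hD hh hh1 hε
  refine ⟨δ, hδ, c₀, hc₀, N₀, hN₀, ?_⟩
  intro w μ hw hμ hwμ
  obtain ⟨J₀, H⟩ := H (w := w) (μ := μ) hw hμ hwμ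
  refine ⟨J₀, ?_⟩
  intro J hJ m F A hA f 𝒞 ρ cc R σ hdet hf hsz htim hval hrow
  obtain ⟨g, hg⟩ := det_fun hdet
  have h0 := (isLaw_cond F.isLaw hA).nonneg
  have H1 := H J hJ F A hA f g R σ hf hsz htim (le_trans (CH_mono_cond h0 ?_) hval) ?_
  · refine le_trans (CH_mono_cond h0 ?_) H1
    intro ω ν hω hν e
    simp only [Prod.mk.injEq] at e ⊢
    rw [hg ω hω, hg ν hν, e.2.1]
    exact ⟨e.1, rfl, e.2.2⟩
  · intro ω ν hω hν e
    simp only [Prod.mk.injEq] at e ⊢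
    rw [hg ω hω, hg ν hν] at e
    exact ⟨e.1, Option.some.inj e.2.1, e.2.2⟩
  · intro B hB hm i j hij hj
    have hPB : 0 < Pe F.p B := lt_of_lt_of_le (by positivity) hm
    have hB0 := (isLaw_cond F.isLaw hPB).nonneg
    have hpos : ∀ ω, 0 < Pool.Agent.H49.Ent.cond F.p B True ω →
        0 < Pool.Agent.H49.Ent.cond F.p A True ω := by
      intro ω hω
      rw [cond_pos_iff F.isLaw.nonneg] at hω ⊢
      have h2 : B ω := by rw [hω.2]; trivial
      exact ⟨hω.1, eq_true (hB ω h2)⟩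
    refine le_trans (CH_mono_cond hB0 ?_) (hrow B hB hm i j hij hj)
    intro ω ν hω hν e
    simp only [Prod.mk.injEq] at e ⊢
    rw [hg ω (hpos ω hω), hg ν (hpos ν hν)] at e
    exact ⟨e.1, Option.some.inj e.2.1, e.2.2⟩

/-! ### The condition -/

section ent

variable {Ω : Type} [Fintype Ω] {p : Ω → ℝ}

/-- A finer condition is replaced by one which determines it up to few bits. -/
theorem few_via (h0 : ∀ ω, 0 ≤ p ω) {α β γ δ : Type} (Y : Ω → α) (R : Ω → β) (D : Ω → γ)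
    (W : Ω → δ) {a e : ℝ} (hD : CH p D W ≤ e) (hY : CH p Y (fun ω => (R ω, D ω)) ≤ a) :
    CH p Y (fun ω => (R ω, W ω)) ≤ a + e := by
  have h1 := CH_le_add h0 Y D (fun ω => (R ω, W ω))
  have h2 : CH p D (fun ω => (R ω, W ω)) ≤ CH p D W :=
    CH_mono_cond h0 fun ω ν _ _ e => (Prod.ext_iff.mp e).2
  have h3 : CH p Y (fun ω => (D ω, (R ω, W ω))) ≤ CH p Y (fun ω => (R ω, D ω)) :=
    CH_mono_cond h0 fun ω ν _ _ e => by
      simp only [Prod.mk.injEq] at e ⊢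
      exact ⟨e.2.1, e.1⟩
  linarith

/-- **The record is removed from the condition**: `E`: deep data over which `Y` is few bits and which
the record does not see. -/
theorem rec_out (h0 : ∀ ω, 0 ≤ p ω) {α β γ δ : Type} (Y : Ω → α) (R : Ω → β) (E : Ω → γ)
    (W : Ω → δ) {a b c : ℝ} (ha : CH p Y (fun ω => (R ω, W ω)) ≤ a) (hb : MI p R E W ≤ b)
    (hc : CH p Y (fun ω => (E ω, W ω)) ≤ c) : CH p Y W ≤ a + b + c := by
  have h1 := Pool.PRM.MI_le_add h0 R Y E W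
  have h2 := Pool.AVG71.MI_eq' h0 R Y W
  linarith

/-- `few_via` and `rec_out`. -/
theorem dj_of (h0 : ∀ ω, 0 ≤ p ω) {α β γ δ ε : Type} (Y : Ω → α) (R : Ω → β) (D : Ω → γ)
    (E : Ω → δ) (W : Ω → ε) {a e b c : ℝ} (hD : CH p D W ≤ e)
    (hY : CH p Y (fun ω => (R ω, D ω)) ≤ a) (hb : MI p R E W ≤ b)
    (hc : CH p Y (fun ω => (E ω, W ω)) ≤ c) : CH p Y W ≤ a + e + b + c :=
  rec_out h0 Y R E W (few_via h0 Y R D W hD hY) hb hc

end ent

theorem floor_ediv (n : ℕ) (x : ℝ) : ⌊(2 : ℝ) ^ n * x⌋ / 2 ^ n = ⌊x⌋ := by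
  have h1 := Int.floor_div_natCast ((2 : ℝ) ^ n * x) (2 ^ n)
  push_cast at h1
  rw [mul_div_assoc, mul_comm, div_mul_cancel₀ x (by positivity)] at h1
  exact h1.symm

/-! ### The values from the gradients -/

section val

variable {F : Fam m J} {c : ℕ → Fin m} {k C : ℕ} {mv : Fin k → ℕ} {Xt : Fin C → ℕ}
  {q w W X mm D K : ℕ} {γ : ℕ → ℕ} {B : F.Ω → Prop}
  {G₀ : PtT F → ℕ → MvPolynomial (Option (Fin m)) ℝ}
  {H : LnT F → ℕ → MvPolynomial (Option (Fin m)) ℝ} {gg : F.Ω → Fin C → Fin k → ℝ}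
  {tp : F.Ω → Fin C → Polynomial ℝ} {ζ χ₁ χ₂ : Type} {z : F.Ω → ζ} {Cj : F.Ω → χ₁}
  {Cx : F.Ω → χ₂} {p : F.Ω → ℝ} {U : ℝ}

/-- The heights of the moved places from their digits. -/
theorem jetm_hgt (hcls : ∀ ω, B ω → ∀ j, G₀ (ptr F J ω) (mv j) = H (slam F w ω) (mv j))
    {N : Fin k → ℕ → ℝ} {ω ν : F.Ω} (hω : B ω) (hν : B ν)
    (e : jetm F c mv w H N ω = jetm F c mv w H N ν) (j : Fin k) :
    |hgt F c G₀ ω (mv j) - hgt F c G₀ ν (mv j)| ≤ 1 / 2 ^ (N j 0 * J) := by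
  have e1 : ⌊(2 : ℝ) ^ (N j 0 * J) * ojet F (c (mv j)) 0 (H (slam F w ω) (mv j)) ω⌋ =
      ⌊(2 : ℝ) ^ (N j 0 * J) * ojet F (c (mv j)) 0 (H (slam F w ν) (mv j)) ν⌋ := by
    have := congrFun e (j, 0)
    simpa [jetm] using this
  have h1 : ∀ o : F.Ω, B o → hgt F c G₀ o (mv j) =
      ojet F (c (mv j)) 0 (H (slam F w o) (mv j)) o := by
    intro o ho
    unfold hgt
    rw [hcls o ho j]
    show _ = jet 0 (X (some (c (mv j))) - H (slam F w o) (mv j)) (bt F o) (bd F o)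
    rw [Pool.OWN68.jet_zero, map_sub, eval_X]
    rfl
  rw [h1 ω hω, h1 ν hν]
  exact near_of_floor (Real.rpow_pos_of_pos two_pos _) e1

/-- **The values of the targets from the gradients**, far digits. -/
theorem hgt_grd (hp : IsLaw p) (hsup : ∀ ω, 0 < p ω → B ω) (hW : W ≤ J)
    (hcls : ∀ ω, B ω → ∀ j, G₀ (ptr F J ω) (mv j) = H (slam F w ω) (mv j))
    (hg : GrdP F c mv Xt q W X γ U B G₀ gg tp z Cj Cx) (hz : Det p z (F.T1 W))
    {N : Fin k → ℕ → ℝ} (hN : ∀ j, ((γ (mv j) + q + X : ℕ) : ℝ) ≤ N j 0 * J) (u : Fin C) :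
    CH p (fun ω => ⌊(2 : ℝ) ^ Xt u * (tp ω u).eval (rt F W ω)⌋)
      (fun ω => (Cx ω, (jetm F c mv w H N ω, (rt F W ω, z ω)))) ≤
      Real.log (2 * ((k + 1) * U + 1) + 1) := by
  have hU := hg.U0
  refine CH_pair_int hp _ _ (by positivity) fun ω ν hω hν e => ?_
  obtain ⟨e1, e2⟩ := Prod.ext_iff.mp e
  obtain ⟨e3, e4⟩ := Prod.ext_iff.mp e2
  have e5 : rt F W ω = rt F W ν := (Prod.ext_iff.mp e4).1
  have e6 : z ω = z ν := (Prod.ext_iff.mp e4).2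
  have t1 := time_eq F hW (hz ω ν hω hν e6) e5
  have hb := hsup ω hω
  have hn := hsup ν hν
  have hd : ∀ j, |hgt F c G₀ ω (mv j) - hgt F c G₀ ν (mv j)| ≤ 1 / 2 ^ (γ (mv j) + q + X) := by
    intro j
    refine (jetm_hgt hcls hb hn e3 j).trans (one_div_le_one_div_of_le (by positivity) ?_)
    rw [← Real.rpow_natCast]
    exact Real.rpow_le_rpow_of_exponent_le one_le_two (hN j)
  have hnr : NrH F c mv q γ G₀ ω ν := by
    intro j
    refine (hd j).trans ?_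
    rw [pow_add _ (γ (mv j) + q) X]
    have p1 : (0 : ℝ) < 2 ^ (γ (mv j) + q) := by positivity
    rw [div_le_div_iff₀ (by positivity) p1]
    have p2 : (1 : ℝ) ≤ 2 ^ X := one_le_pow₀ (by norm_num)
    nlinarith
  have h1 := hg.nx ω ν hb hn t1.2 e6 e1 hnr u
  have h2 : |(2 : ℝ) ^ X * ∑ j, gg ω u j *
      (2 ^ (γ (mv j) + q) * (hgt F c G₀ ω (mv j) - hgt F c G₀ ν (mv j)))| ≤ k * U := by
    rw [Finset.mul_sum]
    refine (Finset.abs_sum_le_sum_abs _ _).trans ((Finset.sum_le_sum (g := fun _ => U)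
      fun j _ => ?_).trans (le_of_eq ?_))
    · have a1 := hg.bm ω hb u j
      have a2 := hd j
      have p1 : (0 : ℝ) < 2 ^ (γ (mv j) + q + X) := by positivity
      rw [le_div_iff₀ p1] at a2
      have e7 : (2 : ℝ) ^ X * (gg ω u j * (2 ^ (γ (mv j) + q) *
          (hgt F c G₀ ω (mv j) - hgt F c G₀ ν (mv j)))) =
          gg ω u j * ((hgt F c G₀ ω (mv j) - hgt F c G₀ ν (mv j)) *
            2 ^ (γ (mv j) + q + X)) := by
        rw [pow_add _ (γ (mv j) + q) X]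
        ring
      rw [e7, abs_mul, abs_mul, abs_of_pos p1]
      calc _ ≤ U * 1 := mul_le_mul a1 a2 (by positivity) hU
        _ = U := mul_one U
    · rw [Finset.sum_const, Finset.card_univ, Fintype.card_fin, nsmul_eq_mul]
  refine Pool.V0S.fl_near ?_
  rw [← mul_sub]
  have h3 := abs_le.mp h1
  have h4 := abs_le.mp h2
  rw [abs_le]
  constructor <;> linarith [h3.1, h3.2, h4.1, h4.2]

/-- **The values of the targets from the gradients**, near digits. -/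
theorem hgt_grd_near (hp : IsLaw p) (hsup : ∀ ω, 0 < p ω → B ω) (hW : W ≤ J)
    (hcls : ∀ ω, B ω → ∀ j, G₀ (ptr F J ω) (mv j) = H (slam F w ω) (mv j))
    (hg : GrdP F c mv Xt q W X γ U B G₀ gg tp z Cj Cx) (hz : Det p z (F.T1 W))
    {N : Fin k → ℕ → ℝ} (hN : ∀ j, ((γ (mv j) + q : ℕ) : ℝ) ≤ N j 0 * J + 2) (u : Fin C)
    (hu : Xt u = X ∨ ∀ ω, B ω → ∀ j, gg ω u j = 0) :
    CH p (fun ω => ⌊(tp ω u).eval (rt F W ω)⌋)
      (fun ω => (Cx ω, (jetm F c mv w H N ω, (rt F W ω, z ω)))) ≤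
      Real.log (2 * ((4 * k + 1) * U + 1) + 1) := by
  have hU := hg.U0
  refine CH_pair_int hp _ _ (by positivity) fun ω ν hω hν e => ?_
  obtain ⟨e1, e2⟩ := Prod.ext_iff.mp e
  obtain ⟨e3, e4⟩ := Prod.ext_iff.mp e2
  have e5 : rt F W ω = rt F W ν := (Prod.ext_iff.mp e4).1
  have e6 : z ω = z ν := (Prod.ext_iff.mp e4).2
  have t1 := time_eq F hW (hz ω ν hω hν e6) e5
  have hb := hsup ω hω
  have hn := hsup ν hν
  have hnr : NrH F c mv q γ G₀ ω ν := by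
    intro j
    refine (jetm_hgt hcls hb hn e3 j).trans ?_
    have p1 : (0 : ℝ) < 2 ^ (γ (mv j) + q) := by positivity
    rw [div_le_div_iff₀ (Real.rpow_pos_of_pos two_pos _) p1, one_mul]
    have a1 : (2 : ℝ) ^ (γ (mv j) + q) ≤ 2 ^ (N j 0 * J + 2) := by
      rw [← Real.rpow_natCast]
      exact Real.rpow_le_rpow_of_exponent_le one_le_two (hN j)
    rw [Real.rpow_add two_pos] at a1
    have a2 : (2 : ℝ) ^ (2 : ℝ) = 2 ^ 2 := by norm_cast
    rw [a2] at a1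
    linarith
  have h1 := hg.nx ω ν hb hn t1.2 e6 e1 hnr u
  have pt : (0 : ℝ) < 2 ^ Xt u := by positivity
  have pt1 : (1 : ℝ) ≤ 2 ^ Xt u := one_le_pow₀ (by norm_num)
  have h2 : |(2 : ℝ) ^ X * ∑ j, gg ω u j *
      (2 ^ (γ (mv j) + q) * (hgt F c G₀ ω (mv j) - hgt F c G₀ ν (mv j)))| ≤
      2 ^ Xt u * (4 * k * U) := by
    rcases hu with hu | hu
    · rw [hu, abs_mul, abs_of_pos (by positivity : (0 : ℝ) < 2 ^ X)]
      refine mul_le_mul_of_nonneg_left ?_ (by positivity)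
      refine (Finset.abs_sum_le_sum_abs _ _).trans ((Finset.sum_le_sum (g := fun _ => 4 * U)
        fun j _ => ?_).trans (le_of_eq ?_))
      · have a1 := hg.bm ω hb u j
        have a2 := hnr j
        have p1 : (0 : ℝ) < 2 ^ (γ (mv j) + q) := by positivity
        rw [le_div_iff₀ p1] at a2
        rw [abs_mul, abs_mul, abs_of_pos p1]
        have a3 : 2 ^ (γ (mv j) + q) * |hgt F c G₀ ω (mv j) - hgt F c G₀ ν (mv j)| ≤ 4 := by
          have : (2 : ℝ) ^ 2 = 4 := by norm_num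
          linarith
        calc _ ≤ U * 4 := mul_le_mul a1 a3 (by positivity) hU
          _ = 4 * U := by ring
      · rw [Finset.sum_const, Finset.card_univ, Fintype.card_fin, nsmul_eq_mul]
        ring
    · have e8 : ∑ j, gg ω u j *
          (2 ^ (γ (mv j) + q) * (hgt F c G₀ ω (mv j) - hgt F c G₀ ν (mv j))) = 0 :=
        Finset.sum_eq_zero fun j _ => by rw [hu ω hb j, zero_mul]
      rw [e8, mul_zero, abs_zero]
      positivity
  refine Pool.V0S.fl_near ?_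
  have h3 := abs_le.mp h1
  have h4 := abs_le.mp h2
  have h5 : |(2 : ℝ) ^ Xt u * ((tp ω u).eval (rt F W ω) - (tp ν u).eval (rt F W ν))| ≤
      2 ^ Xt u * ((4 * k + 1) * U) := by
    have h6 : U ≤ 2 ^ Xt u * U := by nlinarith
    have h7 : 2 ^ Xt u * ((4 * k + 1) * U) = 2 ^ Xt u * (4 * k * U) + 2 ^ Xt u * U := by ring
    rw [abs_le]
    constructor <;> linarith [h3.1, h3.2, h4.1, h4.2]
  rw [abs_mul, abs_of_pos pt] at h5
  exact le_of_mul_le_mul_left h5 pt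

/-- The value of `P = N - M (V - S)` and the value of `N`, for the same `M`, `S`. -/
theorem val_P {N N' V V' M S : Polynomial ℝ} {t s sv κ : ℝ} (hs : 0 ≤ s) (hsv : s ≤ sv)
    (hκ : 0 ≤ κ) (hM : |M.eval t| ≤ κ) (hV : |V.eval t - V'.eval t| ≤ 1 / sv) :
    |s * (N - M * (V - S)).eval t - s * (N' - M * (V' - S)).eval t -
      (s * N.eval t - s * N'.eval t)| ≤ κ := by
  have e : s * (N - M * (V - S)).eval t - s * (N' - M * (V' - S)).eval t -
      (s * N.eval t - s * N'.eval t) = -(M.eval t * (s * (V.eval t - V'.eval t))) := by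
    simp only [Polynomial.eval_sub, Polynomial.eval_mul]
    ring
  rw [e, abs_neg, abs_mul, abs_mul, abs_of_nonneg hs]
  have h1 : s * |V.eval t - V'.eval t| ≤ 1 := by
    rcases hs.eq_or_lt with h | h
    · rw [← h, zero_mul]
      exact zero_le_one
    · have hsv0 : 0 < sv := lt_of_lt_of_le h hsv
      calc s * |V.eval t - V'.eval t| ≤ sv * (1 / sv) :=
            mul_le_mul hsv hV (abs_nonneg _) hsv0.le
        _ = 1 := mul_one_div_cancel hsv0.ne'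
  calc _ ≤ κ * 1 := mul_le_mul hM h1 (mul_nonneg hs (abs_nonneg _)) hκ
    _ = κ := mul_one κ

/-- **The codes of order at least one** of `P = N - M (V - S)` from those of `N` and the codes of
`V`. -/
theorem cod_P {Ω 𝓦 : Type} [Fintype Ω] {p : Ω → ℝ} (hp : IsLaw p) (K : ℕ)
    (Np Vp Mp Sp : Ω → Polynomial ℝ) (Z : Ω → 𝓦) {s sv κ : ℝ} (hs : 0 < s) (hsv : s ≤ sv)
    (hκ : 0 ≤ κ) (hM : ∀ ω, 0 < p ω → ∀ a, |(Mp ω).coeff a| ≤ κ)
    (hZ : ∀ ω ν, 0 < p ω → 0 < p ν → Z ω = Z ν → Mp ω = Mp ν ∧ Sp ω = Sp ν ∧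
      (∀ a : Fin K, ⌊s * (Np ω).coeff a.succ⌋ = ⌊s * (Np ν).coeff a.succ⌋) ∧
      ∀ a : Fin (K + 1), ⌊sv * (Vp ω).coeff a⌋ = ⌊sv * (Vp ν).coeff a⌋) :
    CH p (fun ω (a : Fin K) => ⌊s * (Np ω - Mp ω * (Vp ω - Sp ω)).coeff a.succ⌋) Z ≤
      K * Real.log (2 * (1 + (K + 1) * κ + 1) + 1) := by
  have hsv0 : 0 < sv := lt_of_lt_of_le hs hsv
  refine Pool.LV64.CH_pi hp.nonneg Z K _ fun a => ?_
  refine CH_pair_int hp _ _ (by positivity) fun ω ν hω hν e => ?_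
  obtain ⟨h1, h2, h3, h4⟩ := hZ ω ν hω hν e
  refine Pool.V0S.fl_near ?_
  have hN : |s * ((Np ω).coeff (a + 1) - (Np ν).coeff (a + 1))| ≤ 1 := by
    have h5 := near_of_floor hs (h3 a)
    rw [abs_mul, abs_of_pos hs]
    have h6 := mul_le_mul_of_nonneg_left h5 hs.le
    rw [mul_one_div_cancel hs.ne'] at h6
    exact h6
  have hV : ∀ b ≤ (a : ℕ) + 1, |s * ((Vp ω).coeff b - (Vp ν).coeff b)| ≤ 1 := by
    intro b hb
    have hbK : b < K + 1 := by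
      have := a.2
      omega
    have h5 := near_of_floor hsv0 (h4 ⟨b, hbK⟩)
    have h5' : |(Vp ω).coeff b - (Vp ν).coeff b| ≤ 1 / sv := h5
    rw [abs_mul, abs_of_pos hs]
    calc s * |(Vp ω).coeff b - (Vp ν).coeff b| ≤ sv * (1 / sv) :=
          mul_le_mul hsv h5' (abs_nonneg _) hsv0.le
      _ = 1 := mul_one_div_cancel hsv0.ne'
  have e1 : s * (Np ω - Mp ω * (Vp ω - Sp ω)).coeff (a + 1) -
      s * (Np ν - Mp ν * (Vp ν - Sp ν)).coeff (a + 1) =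
      s * ((Np ω).coeff (a + 1) - (Np ν).coeff (a + 1)) -
        ∑ x ∈ Finset.HasAntidiagonal.antidiagonal ((a : ℕ) + 1),
          (Mp ω).coeff x.1 * (s * ((Vp ω).coeff x.2 - (Vp ν).coeff x.2)) := by
    rw [← h1, ← h2]
    simp only [Polynomial.coeff_sub, Polynomial.coeff_mul]
    have e2 : ∑ x ∈ Finset.HasAntidiagonal.antidiagonal ((a : ℕ) + 1),
        (Mp ω).coeff x.1 * (s * ((Vp ω).coeff x.2 - (Vp ν).coeff x.2)) =
        s * (∑ x ∈ Finset.HasAntidiagonal.antidiagonal ((a : ℕ) + 1),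
          (Mp ω).coeff x.1 * ((Vp ω).coeff x.2 - (Sp ω).coeff x.2)) -
        s * (∑ x ∈ Finset.HasAntidiagonal.antidiagonal ((a : ℕ) + 1),
          (Mp ω).coeff x.1 * ((Vp ν).coeff x.2 - (Sp ω).coeff x.2)) := by
      rw [Finset.mul_sum, Finset.mul_sum, ← Finset.sum_sub_distrib]
      refine Finset.sum_congr rfl fun x _ => ?_
      ring
    rw [e2]
    ring
  have e3 : |∑ x ∈ Finset.HasAntidiagonal.antidiagonal ((a : ℕ) + 1),
      (Mp ω).coeff x.1 * (s * ((Vp ω).coeff x.2 - (Vp ν).coeff x.2))| ≤ (K + 1) * κ := by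
    refine (Finset.abs_sum_le_sum_abs _ _).trans ((Finset.sum_le_sum (g := fun _ => κ)
      fun x hx => ?_).trans ?_)
    · rw [Finset.HasAntidiagonal.mem_antidiagonal] at hx
      rw [abs_mul]
      calc _ ≤ κ * 1 := mul_le_mul (hM ω hω _) (hV x.2 (by omega)) (abs_nonneg _) hκ
        _ = κ := mul_one κ
    · rw [Finset.sum_const, Finset.Nat.card_antidiagonal, nsmul_eq_mul]
      refine mul_le_mul_of_nonneg_right ?_ hκ
      have h7 : (a : ℕ) + 1 + 1 ≤ K + 1 := by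
        have := a.2
        omega
      exact_mod_cast h7
  show |s * (Np ω - Mp ω * (Vp ω - Sp ω)).coeff (a + 1) -
    s * (Np ν - Mp ν * (Vp ν - Sp ν)).coeff (a + 1)| ≤ _
  rw [e1]
  have h8 := abs_le.mp hN
  have h9 := abs_le.mp e3
  rw [abs_le]
  constructor <;> linarith [h8.1, h8.2, h9.1, h9.2]

/-! ### The fields `dj`, `jt` -/

/-- **The field `dj`.** `D`: the context of the line, `R`: the record, `E`: the deep data. -/
theorem dj_ev {Ω α β ρ δ : Type} [Fintype Ω] {p : Ω → ℝ} (h0 : ∀ ω, 0 ≤ p ω) {C K : ℕ}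
    (tp : Ω → Fin C → Polynomial ℝ) (Xt : Fin C → ℕ) (R : Ω → α) (D : Ω → β) (E : Ω → ρ)
    (W : Ω → δ) {a e b c : ℝ} (hD : CH p D W ≤ e)
    (hY : ∀ u, CH p (fun ω (j : Fin (K + 1)) => ⌊(2 : ℝ) ^ Xt u * (tp ω u).coeff j⌋)
      (fun ω => (R ω, D ω)) ≤ a) (hb : MI p R E W ≤ b)
    (hc : ∀ u, CH p (fun ω (j : Fin K) => ⌊(2 : ℝ) ^ Xt u * (tp ω u).coeff j.succ⌋)
      (fun ω => (E ω, W ω)) ≤ c) :
    CH p (fun ω u (j : Fin K) => ⌊(2 : ℝ) ^ Xt u * (tp ω u).coeff j.succ⌋) W ≤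
      C * (a + e + b + c) := by
  refine Pool.LV64.CH_pi h0 W C _ fun u => ?_
  refine dj_of h0 _ R D E W hD (le_trans (CH_mono_left h0 fun ω ν _ _ e => ?_) (hY u)) hb (hc u)
  have e1 := (Prod.ext_iff.mp e).1
  funext j
  exact congrFun e1 j.succ

/-- **The field `jt`.** -/
theorem jt_ev {Ω α β ρ δ : Type} [Fintype Ω] {p : Ω → ℝ} (h0 : ∀ ω, 0 ≤ p ω) {C K : ℕ}
    (tp : Ω → Fin C → Polynomial ℝ) (Xt : Fin C → ℕ) (R : Ω → α) (D : Ω → β)
    {V : Ω → ρ} (W : Ω → δ) {a e : ℝ} (hD : CH p D (fun ω => (V ω, W ω)) ≤ e)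
    (hY : ∀ u, CH p (fun ω (j : Fin (K + 1)) => ⌊(tp ω u).coeff j⌋)
      (fun ω => (R ω, D ω)) ≤ a) :
    CH p (fun ω u (j : Fin (K + 1)) => ⌊(2 : ℝ) ^ Xt u * (tp ω u).coeff j⌋ / 2 ^ Xt u)
      (fun ω => (V ω, (R ω, W ω))) ≤ C * (a + e) := by
  refine Pool.LV64.CH_pi h0 _ C _ fun u => ?_
  have h1 := few_via h0 _ R D (fun ω => (V ω, W ω)) hD (hY u)
  refine le_trans (le_trans (CH_mono_left h0 fun ω ν _ _ e => ?_)
    (CH_mono_cond h0 fun ω ν _ _ e => ?_)) h1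
  · have e1 := (Prod.ext_iff.mp e).1
    funext j
    simp only [floor_ediv]
    exact congrFun e1 j
  · simp only [Prod.mk.injEq] at e ⊢
    exact ⟨e.2.1, e.1, e.2.2⟩

end val

end Pool.VS64
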